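import Pool.Agent.MP42.A6a

/-!
# General reduction theorem (GRT): definitions

`JCert P k` = a junction certificate: tables on the facets that are not core (plates and collars),
words (lanes over the lower and upper side) on the core walls.

Rim states: a state `r` with vertical north direction (up or down) of a core wall.  The rim of `r`
is its south side, the band is to the north, the junction to the south.  All statements on rims are
made in the frame of the rim state, so the two rims of a band are treated in the same way.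
Walking east along the rim (`pE`), a lane `n` opens a strand (level `H + 1`), a lane `s` closes the
strand of level `H`.  The strand of level `l` runs in the row `base r - l` of the frame of `r`.
-/

set_option autoImplicit false
set_option linter.unusedSectionVars false

namespace Pool.Agent.MP42G

open Pool.Agent.Helper55.UNF Pool.Agent.Helper55.UNF.GridSolid

/-- change of the height -/
def vl : Ln → ℤ
  | Ln.z => 0
  | Ln.n => 1
  | Ln.s => -1

variable {P : GridSolid}

/-- north is up or down -/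
def IsV (s : P.FSt) : Prop := s.1.n.1 = 2

/-- north is up -/
def IsU (s : P.FSt) : Prop := s.1.n = (2, true)

instance (s : P.FSt) : Decidable (IsU s) := by unfold IsU; infer_instance

lemma IsV_stE (s : P.FSt) : IsV s.stE ↔ IsV s := by
  unfold IsV
  rw [Pool.Agent.MP42.stE_n]

lemma IsU_stE (s : P.FSt) : IsU s.stE ↔ IsU s := by
  unfold IsU
  rw [Pool.Agent.MP42.stE_n]

lemma IsV_r2 (s : P.FSt) : IsV s.r2 ↔ IsV s := by
  unfold IsV
  rw [Pool.Agent.MP42.r2_n_axis]

/-- The support of a lean facet `f` at its south: a facet `f0`, `n` steps to the south of `f`, with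
a straight strand that also crosses the first column of its eastern (`E = true`) or western
neighbour `g0`; the line over `g0` is canonical and the side column towards `f` is empty.
Either `f0`, `g0` are core facets without letters that are not used as special facets (`nsp`), or
they are not core and the row `y0` of the strand is given. -/
structure JLean (P : GridSolid) (k : ℕ) (core nsp L : P.Facet → Prop) (can : P.Facet → P.FSt)
    (pr : P.Facet → ℕ → ℕ → Bool) (la : P.Facet → ℕ → ℕ → Ln) (f : P.Facet) where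
  f0 : P.Facet
  g0 : P.Facet
  n : ℕ
  /-- east support or west support -/
  E : Bool
  hn : 0 < n
  top : (pN ^ (n : ℤ)) (can f0) = can f
  par : ∀ i : ℕ, i ≤ n → if E then ((pN ^ (i : ℤ)) (can f0)).stE = (pN ^ (i : ℤ)) (can g0)
    else ((pN ^ (i : ℤ)) (can g0)).stE = (pN ^ (i : ℤ)) (can f0)
  s2 : ∀ i : ℕ, 1 ≤ i → i ≤ n → ∃ h, ¬ L h ∧ ¬ core h ∧ (pN ^ (i : ℤ)) (can g0) = can h ∧
    ∀ y < k, pr h (if E then 0 else k) y = false
  base : (core f0 ∧ core g0 ∧ nsp f0 ∧ nsp g0 ∧
      ∀ x < k, la f0 x 0 = Ln.z ∧ la f0 x k = Ln.z ∧ la g0 x 0 = Ln.z ∧ la g0 x k = Ln.z) ∨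
    (¬ core f0 ∧ ¬ core g0 ∧ ∃ y0 < k, (∀ x ≤ k, pr f0 x y0 = true) ∧
      (∀ x < k, la f0 x y0 = Ln.z ∧ la f0 x (y0 + 1) = Ln.z) ∧
      (pr g0 (if E then 0 else k - 1) y0 = true ∧ pr g0 ((if E then 0 else k - 1) + 1) y0 = true ∧
        la g0 (if E then 0 else k - 1) y0 = Ln.z ∧
        la g0 (if E then 0 else k - 1) (y0 + 1) = Ln.z) ∧
      ∀ y, y0 < y → y < k → pr g0 (if E then 0 else k) y = false)

/-- A junction certificate. -/
structure JCert (P : GridSolid) (k : ℕ) where
  core : P.Facet → Prop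
  core_E : ∀ s : P.FSt, IsV s → (core s.stE.facet ↔ core s.facet)
  can : P.Facet → P.FSt
  can_facet : ∀ f, (can f).facet = f
  can_core : ∀ f, core f → IsV (can f)
  /-- strands over vertical unit edges (only the facets that are not core matter) -/
  pr : P.Facet → ℕ → ℕ → Bool
  /-- lanes over horizontal unit edges (on the core facets only the lower and upper side matter) -/
  la : P.Facet → ℕ → ℕ → Ln
  ok : ∀ f, ¬ core f → CellOk k (pr f) (la f)
  /-- the two outermost columns of the core facets carry no lanes -/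
  free : ∀ f, core f → ∀ x < k, (x < 2 ∨ k ≤ x + 2) → la f x 0 = Ln.z ∧ la f x k = Ln.z
  gN : ∀ f g, (can f).stN = can g → ∀ x < k, la f x k = la g x 0
  gN' : ∀ f, (∀ g, (can f).stN ≠ can g) → ∀ x < k, la f x k = Ln.z
  gS' : ∀ g, (∀ f, (can f).stN ≠ can g) → ∀ x < k, la g x 0 = Ln.z
  gE : ∀ f g, ¬ core f → (can f).stE = can g → ∀ y < k, pr f k y = pr g 0 y
  gEr : ∀ f g, ¬ core f → (can f).stE = (can g).r2 → ∀ y < k, pr f k y = pr g k (k - 1 - y)
  gWr : ∀ f g, ¬ core f → (can f).r2.stE = can g → ∀ y < k, pr f 0 y = pr g 0 (k - 1 - y)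
  gE' : ∀ f, ¬ core f → (∀ g, (can f).stE ≠ can g ∧ (can f).stE ≠ (can g).r2) → ∀ y < k,
    pr f k y = false
  gW' : ∀ f, ¬ core f → (∀ g, (can f).r2.stE ≠ can g ∧ (can f).r2.stE ≠ (can g).r2) → ∀ y < k,
    pr f 0 y = false
  /-- the lean facets: they carry nothing and are attached to their eastern or western neighbour -/
  L : P.Facet → Prop
  L_core : ∀ f, L f → ¬ core f
  Lpr : ∀ f, L f → ∀ x y, x ≤ k → y < k → pr f x y = false
  Lla : ∀ f, L f → ∀ x y, x < k → y ≤ k → la f x y = Ln.z
  /-- coverage: the canonical line of a regular facet reaches a core facet or a west port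
  (`w = true`) and a core facet or an east port (`w = false`) of the column `x` -/
  cov : ∀ f, ¬ core f → ¬ L f → ∀ x < k, ∀ w : Bool, ∃ z : ℤ,
    (∀ y ∈ Set.uIcc 0 z, ∃ g, ¬ L g ∧ (pN ^ y) (can f) = can g) ∧
    ∃ g, (pN ^ z) (can f) = can g ∧
      (core g ∨ ∃ y < k, pr g (if w then x else x + 1) y = true)
  /-- facets that are not used as special facets -/
  nsp : P.Facet → Prop
  nsp_ex : ∀ r : P.FSt, IsV r → core r.facet → ∃ a, pE.SameCycle r a ∧ ¬ nsp a.facet
  lean : ∀ f, L f → Nonempty (JLean P k core nsp L can pr la f)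
  lcut : ∀ f, L f → ∃ g, core g

namespace JCert

variable {k : ℕ} (C : JCert P k)

/-- the lane over the south side of a state -/
noncomputable def wd (r : P.FSt) (x : ℕ) : Ln :=
  if C.can r.facet = r then C.la r.facet x 0 else C.la r.facet (k - 1 - x) k

/-- the value of a predicate on the south side of a state -/
def fv (χ : P.Facet → ℕ → ℕ → Prop) (r : P.FSt) (x : ℕ) : Prop :=
  if C.can r.facet = r then χ r.facet x 0 else χ r.facet (k - 1 - x) k

/-- the next column on a rim -/
def nx (k : ℕ) (q : P.FSt × ℕ) : P.FSt × ℕ := if q.2 + 1 < k then (q.1, q.2 + 1) else (q.1.stE, 0)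

/-- sum of the next `n` letters of the word of a rim -/
noncomputable def wsum (q : P.FSt × ℕ) (n : ℕ) : ℤ :=
  ∑ j ∈ Finset.range n, vl (C.wd ((nx k)^[j] q).1 ((nx k)^[j] q).2)

/-- bracket matching: `q` opens a strand and `q'` closes it -/
def Matched (q q' : P.FSt × ℕ) : Prop :=
  C.wd q.1 q.2 = Ln.n ∧ C.wd q'.1 q'.2 = Ln.s ∧ ∃ n, 1 ≤ n ∧ (nx k)^[n] q = q' ∧
    C.wsum q n = 1 ∧ ∀ j, 1 ≤ j → j ≤ n → 1 ≤ C.wsum q j

/-- `q` opens a strand that is never closed -/
def Unmatched (q : P.FSt × ℕ) : Prop := C.wd q.1 q.2 = Ln.n ∧ ∀ j, 1 ≤ j → 1 ≤ C.wsum q j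

/-- the predicates are invariant in the junctions -/
structure Inv (ψ χ : P.Facet → ℕ → ℕ → Prop) : Prop where
  cell : ∀ f, ¬ C.core f → CellRel k (C.pr f) (C.la f) (ψ f) (χ f)
  gN : ∀ f g, (C.can f).stN = C.can g → ∀ x < k, C.la f x k ≠ Ln.z → (χ f x k ↔ χ g x 0)
  gE : ∀ f g, ¬ C.core f → (C.can f).stE = C.can g → ∀ y < k, C.pr f k y = true →
    (ψ f k y ↔ ψ g 0 y)
  gEr : ∀ f g, ¬ C.core f → (C.can f).stE = (C.can g).r2 → ∀ y < k, C.pr f k y = true →
    (ψ f k y ↔ ψ g k (k - 1 - y))
  gWr : ∀ f g, ¬ C.core f → (C.can f).r2.stE = C.can g → ∀ y < k, C.pr f 0 y = true →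
    (ψ f 0 y ↔ ψ g 0 (k - 1 - y))
  matched : ∀ r x q', IsV r → C.core r.facet → x < k → C.Matched (r, x) q' →
    (C.fv χ r x ↔ C.fv χ q'.1 q'.2)

/-- any two strands of a rim that are never closed have the same value -/
def Eq2 (χ : P.Facet → ℕ → ℕ → Prop) : Prop :=
  ∀ r x r' x', IsV r → C.core r.facet → pE.SameCycle r r' → x < k → x' < k →
    C.Unmatched (r, x) → C.Unmatched (r', x') → (C.fv χ r x ↔ C.fv χ r' x')

/-- Constant on the junctions: `Q` is the value of the junction; for the core facets `Q r` is the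
value of the rim of the rim state `r`. -/
structure ConstJ (ψ χ : P.Facet → ℕ → ℕ → Prop) (Q : P.FSt → Prop) : Prop where
  fac : ∀ s, ¬ C.core s.facet → (Q s ↔ Q (C.can s.facet))
  adj : ∀ s, ¬ C.core s.facet → ¬ C.core s.stE.facet → (Q s ↔ Q s.stE)
  rim : ∀ r, IsV r → C.core r.facet → (Q r ↔ Q r.stE)
  link : ∀ r, IsV r → C.core r.facet → (Q r ↔ Q r.r2.stN)
  feet : ∀ r x, IsV r → C.core r.facet → x < k → C.wd r x ≠ Ln.z → (C.fv χ r x ↔ Q r)
  ver : ∀ f x y, ¬ C.core f → x ≤ k → y < k → C.pr f x y = true → (ψ f x y ↔ Q (C.can f))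
  hor : ∀ f x y, ¬ C.core f → x < k → y ≤ k → C.la f x y ≠ Ln.z → (χ f x y ↔ Q (C.can f))

/-- the closed-up junctions are closed curves -/
def Conn : Prop := ∀ ψ χ, C.Inv ψ χ → C.Eq2 χ → ∃ Q, C.ConstJ ψ χ Q

/-- The words of the rims: every rim has total `2`, and partial sums are bounded. -/
structure Words (B : ℕ) : Prop where
  bd : ∀ r x n, IsV r → C.core r.facet → x < k → n ≤ Function.minimalPeriod pE r * k →
    |C.wsum (r, x) n| ≤ B
  tot : ∀ r, IsV r → C.core r.facet → C.wsum (r, 0) (Function.minimalPeriod pE r * k) = 2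

/-! ## Heights and special facets -/

open Classical in
/-- shift columns of the special facets -/
noncomputable def shc (k : ℕ) (sp : P.Facet → Prop) (r : P.FSt) (x : ℕ) : Bool :=
  decide (sp r.facet ∧ (if IsU r then k ≤ x + 2 else x < 2))

/-- heights on the rims, special facets and parities -/
structure Rims (D : ℕ) where
  hk : 2 * D + 2 ≤ k
  hk4 : 4 ≤ k
  /-- the special facets: one in every core band -/
  sp : P.Facet → Prop
  sp_ex : ∀ r : P.FSt, IsV r → C.core r.facet → ∃! a, pE.SameCycle r a ∧ sp a.facet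
  sp_nsp : ∀ f, C.core f → sp f → ¬ C.nsp f
  /-- the height on the line `x` of the rim state `r` -/
  H : P.FSt → ℕ → ℕ
  H_le : ∀ r x, IsV r → C.core r.facet → x ≤ k → H r x ≤ D
  H_x : ∀ r x, IsV r → C.core r.facet → x < k →
    (H r (x + 1) : ℤ) + (if shc k sp r x then 1 else 0) = H r x + vl (C.wd r x)
  H_E : ∀ r, IsV r → C.core r.facet → H r.stE 0 = H r k
  /-- parity -/
  t : P.FSt → Bool
  t_E : ∀ s, t s.stE = t s
  t_r : ∀ s, t s.r2 = t s

namespace Rims

variable {C} {D : ℕ} (R : C.Rims D)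

/-- number of the core rows -/
def tc (r : P.FSt) : ℕ := if R.t r then 2 else 1

/-- the row of level `0` in the frame of the rim state `r` -/
def base (r : P.FSt) : ℕ := if IsU r then D else k - D - R.tc r

end Rims

end JCert

end Pool.Agent.MP42G
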