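import Pool.Agent.MP42.G.Flags

/-!
# GRT: the general reduction theorem
-/

set_option autoImplicit false

namespace Pool.Agent.MP42G

open Pool.Agent.Helper55.UNF Pool.Agent.Helper55.UNF.GridSolid

/-- **General reduction theorem.** -/
theorem JCert.grt {P : GridSolid} (hP : P.IsOrthogonalPolyhedron) {k B : ℕ} (C : JCert P k)
    (hW : C.Words B) (hC : C.Conn) (hk : 4 * B + 10 ≤ k) :
    (P.refine (5 * k) (by omega)).HasEdgeUnfolding := by
  obtain ⟨R⟩ := exists_rims C hW (by omega)
  obtain ⟨t, h1, h2, ht⟩ := exists_t C R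
  exact JCert.grt_aux hP hW hC (R.withT t h1 h2) (by omega) ht

end Pool.Agent.MP42G
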