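import Pool.Agent.MP42.G.WinR
import Pool.Agent.MP42.A4

/-!
# GRT: special facets and heights
-/

set_option autoImplicit false
set_option linter.unusedSectionVars false

namespace Pool.Agent.MP42G

open Pool.Agent.Helper55.UNF Pool.Agent.Helper55.UNF.GridSolid
open Pool.Agent.MP42 (sig Wl IsW minimalPeriod_pos' pos_unique exists_pos pow_minimalPeriod)
open Function

/-! ## potentials on the cycles of a permutation -/

/-- start and position of the elements of the cycles -/
lemma exists_start {W : Type*} [Finite W] (σ : Equiv.Perm W) :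
    ∃ (b : W → W) (i : W → ℕ), (∀ s, i s < minimalPeriod σ (b s)) ∧ (∀ s, (σ^[i s]) (b s) = s) ∧
      ∀ s, b (σ s) = b s ∧ ((i s + 1 < minimalPeriod σ (b s) ∧ i (σ s) = i s + 1) ∨
        (i s + 1 = minimalPeriod σ (b s) ∧ i (σ s) = 0)) := by
  let S := Equiv.Perm.SameCycle.setoid σ
  let b : W → W := fun s => (Quotient.mk S s).out
  have hb : ∀ s, σ.SameCycle (b s) s := fun s => Quotient.mk_out (s := S) s
  have hb' : ∀ s, b (σ s) = b s := by
    intro s
    show (Quotient.mk S (σ s)).out = (Quotient.mk S s).out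
    congr 1
    exact Quotient.sound (s := S) (show σ.SameCycle (σ s) s from
      (Equiv.Perm.sameCycle_apply_left.2 (Equiv.Perm.SameCycle.refl _ _)))
  have hpos : ∀ s, ∃ i, i < minimalPeriod σ (b s) ∧ (σ^[i]) (b s) = s := by
    intro s
    obtain ⟨k, h0, h1, h2⟩ := exists_pos σ (hb s)
    rw [Equiv.Perm.coe_pow] at h2
    rcases Nat.lt_or_ge k (minimalPeriod σ (b s)) with h3 | h3
    · exact ⟨k, h3, h2⟩
    · refine ⟨0, minimalPeriod_pos' σ _, ?_⟩
      have h4 : k = minimalPeriod σ (b s) := le_antisymm h1 h3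
      rw [h4] at h2
      rw [iterate_minimalPeriod] at h2
      exact h2
  choose i hi1 hi2 using hpos
  refine ⟨b, i, hi1, hi2, fun s => ⟨hb' s, ?_⟩⟩
  have h1 : (σ^[i s + 1]) (b s) = σ s := by
    rw [iterate_succ_apply', hi2]
  have h2 := hi2 (σ s)
  have h3 := hi1 (σ s)
  rw [hb' s] at h2 h3
  rcases Nat.lt_or_ge (i s + 1) (minimalPeriod σ (b s)) with h4 | h4
  · left
    refine ⟨h4, ?_⟩
    exact iterate_injOn_Iio_minimalPeriod (Set.mem_Iio.2 h3) (Set.mem_Iio.2 h4)
      (h2.trans h1.symm)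
  · right
    have h5 := hi1 s
    have h6 : i s + 1 = minimalPeriod σ (b s) := by omega
    refine ⟨h6, ?_⟩
    rw [h6, iterate_minimalPeriod] at h1
    apply iterate_injOn_Iio_minimalPeriod (Set.mem_Iio.2 h3)
      (Set.mem_Iio.2 (minimalPeriod_pos' σ (b s)))
    show (σ^[i (σ s)]) (b s) = (σ^[0]) (b s)
    rw [iterate_zero]
    exact h2.trans h1.symm

/-- the potential of a function with zero sum on the cycles -/
lemma pot_step {W : Type*} {σ : Equiv.Perm W} {b : W → W} {i : W → ℕ}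
    (h2 : ∀ s, (σ^[i s]) (b s) = s)
    (h3 : ∀ s, b (σ s) = b s ∧ ((i s + 1 < minimalPeriod σ (b s) ∧ i (σ s) = i s + 1) ∨
        (i s + 1 = minimalPeriod σ (b s) ∧ i (σ s) = 0)))
    (f : W → ℤ) (s : W)
    (hf : ∑ j ∈ Finset.range (minimalPeriod σ (b s)), f ((σ^[j]) (b s)) = 0) :
    ∑ j ∈ Finset.range (i (σ s)), f ((σ^[j]) (b (σ s))) =
      ∑ j ∈ Finset.range (i s), f ((σ^[j]) (b s)) + f s := by
  obtain ⟨h4, h5 | h5⟩ := h3 s
  · rw [h4, h5.2, Finset.sum_range_succ, h2]
  · rw [h5.2, Finset.sum_range_zero]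
    rw [← h5.1, Finset.sum_range_succ, h2] at hf
    exact hf.symm

variable {P : GridSolid}

namespace JCert

variable {k : ℕ} (C : JCert P k)

/-! ## the word of a rim -/

lemma nx_iter (r : P.FSt) {x n : ℕ} (h : x + n < k) : (nx k)^[n] (r, x) = (r, x + n) := by
  induction n with
  | zero => rfl
  | succ n ih =>
    rw [iterate_succ_apply', ih (by omega)]
    unfold nx
    rw [if_pos (by show x + n + 1 < k; omega)]
    rfl

lemma nx_turn (r : P.FSt) (hk : 0 < k) : (nx k)^[k] (r, 0) = (r.stE, 0) := by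
  obtain ⟨m, rfl⟩ : ∃ m, k = m + 1 := ⟨k - 1, by omega⟩
  rw [iterate_succ_apply', nx_iter r (by omega)]
  unfold nx
  rw [if_neg (by show ¬ (0 + m + 1 < m + 1); omega)]

lemma nx_mul (r : P.FSt) (hk : 0 < k) (i : ℕ) :
    (nx k)^[i * k] (r, 0) = ((pE^[i]) r, 0) := by
  induction i with
  | zero => simp
  | succ i ih =>
    rw [Nat.succ_mul, add_comm, iterate_add_apply, ih, nx_turn _ hk, iterate_succ_apply']
    rfl

lemma nx_gen (r : P.FSt) (i : ℕ) {x : ℕ} (hx : x < k) :
    (nx k)^[i * k + x] (r, 0) = ((pE^[i]) r, x) := by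
  rw [add_comm, iterate_add_apply, nx_mul r (by omega), nx_iter _ (by omega), zero_add]

lemma wsum_gen (r : P.FSt) (i : ℕ) {x : ℕ} (hx : x ≤ k) :
    C.wsum (r, 0) (i * k + x) =
      ∑ j ∈ Finset.range i, ∑ y ∈ Finset.range k, vl (C.wd ((pE^[j]) r) y) +
        ∑ y ∈ Finset.range x, vl (C.wd ((pE^[i]) r) y) := by
  have key : ∀ i x, x ≤ k → C.wsum (r, 0) (i * k + x) = C.wsum (r, 0) (i * k) +
      ∑ y ∈ Finset.range x, vl (C.wd ((pE^[i]) r) y) := by
    intro i x hx
    unfold wsum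
    rw [Finset.sum_range_add]
    congr 1
    apply Finset.sum_congr rfl
    intro y hy
    rw [Finset.mem_range] at hy
    rw [nx_gen r i (by omega)]
  rw [key i x hx]
  congr 1
  clear hx x
  induction i with
  | zero => simp [wsum]
  | succ i ih =>
    rw [Nat.succ_mul, key i k le_rfl, ih, Finset.sum_range_succ]

/-! ## special facets -/

/-- the wall states with north up -/
lemma isW_iff (s : P.FSt) : IsW s ↔ IsU s := Iff.rfl

lemma not_IsU_r2 {r : P.FSt} (h : IsV r) (hu : ¬ IsU r) : IsU r.r2 := (IsU_r2 h).2 hu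

/-- one special facet in every band -/
theorem exists_sp (P : GridSolid) (p : P.Facet → Prop)
    (hp : ∀ r : P.FSt, IsV r → ∃ a, pE.SameCycle r a ∧ p a.facet) : ∃ sp : P.Facet → Prop,
    (∀ f, sp f → p f) ∧ ∀ r : P.FSt, IsV r → ∃! a, pE.SameCycle r a ∧ sp a.facet := by
  have hU : ∀ (j : ℤ) (c : P.FSt), IsU ((pE ^ j) c) ↔ IsU c := by
    intro j
    induction j using Int.induction_on with
    | zero => intro c; rfl
    | succ i ih =>
      intro c
      rw [zpow_add, zpow_one, Equiv.Perm.mul_apply, ih]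
      exact IsU_stE c
    | pred i ih =>
      intro c
      rw [zpow_sub, zpow_one, Equiv.Perm.mul_apply, ih]
      have h := IsU_stE (pE⁻¹ c)
      have h' : (pE⁻¹ c).stE = c := by
        show pE (pE⁻¹ c) = c
        simp
      rw [h'] at h
      exact h.symm
  obtain ⟨sp, hspp, h2⟩ := Pool.Agent.MP42.exists_special (sig P) (fun s => p s.1.facet)
    (fun s => by
      obtain ⟨a, ha1, ha2⟩ := hp s.1 (IsU.isV s.2)
      have ha3 : IsU a := by
        obtain ⟨j, hj⟩ := ha1
        rw [← hj, hU]; exact s.2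
      exact ⟨⟨a, ha3⟩, (Pool.Agent.MP42.sig_same_iff P _ _).2 ha1, ha2⟩)
  -- the states with north up
  have key : ∀ r : P.FSt, IsU r → ∃! a, pE.SameCycle r a ∧
      ∃ s : Wl P, sp s ∧ s.1.facet = a.facet := by
    intro r hr
    obtain ⟨a, ⟨ha1, ha2⟩, ha3⟩ := h2 ⟨r, hr⟩
    refine ⟨a.1, ⟨(Pool.Agent.MP42.sig_same_iff P _ _).1 ha1, a, ha2, rfl⟩, ?_⟩
    rintro c ⟨hc1, s, hs1, hs2⟩
    have hcU : IsU c := by
      obtain ⟨j, hj⟩ := hc1
      rw [← hj, hU]
      exact hr
    have hsc : s = ⟨c, hcU⟩ := by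
      apply Subtype.ext
      apply Pool.Agent.MP42.eq_of_facet_n hs2
      rw [show s.1.1.n = (2, true) from s.2]
      exact hcU.symm
    have h4 := ha3 ⟨c, hcU⟩ ⟨(Pool.Agent.MP42.sig_same_iff P _ _).2 hc1, by rw [← hsc]; exact hs1⟩
    exact congrArg Subtype.val h4
  refine ⟨fun f => ∃ s : Wl P, sp s ∧ s.1.facet = f, ?_, fun r hr => ?_⟩
  · rintro f ⟨s, hs1, rfl⟩
    exact hspp s hs1
  by_cases hu : IsU r
  · exact key r hu
  · obtain ⟨a, ⟨ha1, ha2⟩, ha3⟩ := key r.r2 (not_IsU_r2 hr hu)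
    refine ⟨a.r2, ⟨?_, ha2⟩, ?_⟩
    · have := Pool.Agent.MP42.r2_same P ha1
      rwa [FSt.r2_r2] at this
    · rintro c ⟨hc1, hc2⟩
      have := ha3 c.r2 ⟨Pool.Agent.MP42.r2_same P hc1, hc2⟩
      rw [← this, FSt.r2_r2]

/-! ## heights -/

lemma shc_sum_facet (hk : 4 ≤ k) (sp : P.Facet → Prop) (r : P.FSt) :
    (sp r.facet → ∑ x ∈ Finset.range k, (if shc k sp r x then (1 : ℤ) else 0) = 2) ∧
      (¬ sp r.facet → ∀ x, (if shc k sp r x then (1 : ℤ) else 0) = 0) := by
  constructor
  · intro h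
    obtain ⟨m, rfl⟩ : ∃ m, k = m + 4 := ⟨k - 4, by omega⟩
    by_cases hu : IsU r
    · have e : ∀ x ∈ Finset.range (m + 2), (if shc (m + 4) sp r x then (1 : ℤ) else 0) = 0 := by
        intro x hx
        rw [Finset.mem_range] at hx
        rw [if_neg]
        rw [shc_true, if_pos hu]
        omega
      rw [show m + 4 = m + 2 + 2 by ring, Finset.sum_range_succ, Finset.sum_range_succ,
        Finset.sum_eq_zero (by rw [show m + 2 + 2 = m + 4 by ring]; exact e), if_pos, if_pos]
      · norm_num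
      · rw [shc_true, if_pos hu]
        exact ⟨h, by omega⟩
      · rw [shc_true, if_pos hu]
        exact ⟨h, by omega⟩
    · rw [show m + 4 = 2 + (m + 2) by ring, Finset.sum_range_add, Finset.sum_range_succ,
        Finset.sum_range_succ, Finset.sum_range_zero, if_pos, if_pos]
      · have e : ∀ x ∈ Finset.range (m + 2),
            (if shc (2 + (m + 2)) sp r (2 + x) then (1 : ℤ) else 0) = 0 := by
          intro x hx
          rw [if_neg]
          rw [shc_true, if_neg hu]
          omega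
        rw [Finset.sum_eq_zero e]
        norm_num
      · rw [shc_true, if_neg hu]
        exact ⟨h, by omega⟩
      · rw [shc_true, if_neg hu]
        exact ⟨h, by omega⟩
  · intro h x
    rw [if_neg]
    rw [shc_true]
    exact fun h1 => h h1.1

lemma sum_nonneg_le {n m : ℕ} (h : n ≤ m) (f : ℕ → ℤ) (hf : ∀ j, 0 ≤ f j) :
    0 ≤ ∑ j ∈ Finset.range n, f j ∧ ∑ j ∈ Finset.range n, f j ≤ ∑ j ∈ Finset.range m, f j :=
  ⟨Finset.sum_nonneg fun j _ => hf j,
    Finset.sum_le_sum_of_subset_of_nonneg (Finset.range_mono h) fun j _ _ => hf j⟩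

/-- the core band of a rim state -/
lemma band_iter {r : P.FSt} (h : IsV r ∧ C.core r.facet) (j : ℕ) :
    IsV ((pE^[j]) r) ∧ C.core ((pE^[j]) r).facet := by
  induction j with
  | zero => exact h
  | succ j ih =>
    rw [iterate_succ_apply']
    exact ⟨(IsV_stE _).2 ih.1, (C.core_E _ ih.1).2 ih.2⟩

theorem exists_rims {P : GridSolid} {k B : ℕ} (C : JCert P k) (hW : C.Words B)
    (hk : 2 * (2 * B + 4) + 2 ≤ k) : Nonempty (C.Rims (2 * B + 4)) := by
  classical
  obtain ⟨sp, hspn, hsp⟩ := exists_sp P (fun f => ¬ (C.core f ∧ C.nsp f)) (fun r hr => by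
    by_cases hc : C.core r.facet
    · obtain ⟨a, ha1, ha2⟩ := C.nsp_ex r hr hc
      exact ⟨a, ha1, fun h => ha2 h.2⟩
    · exact ⟨r, Equiv.Perm.SameCycle.refl _ _, fun h => hc h.1⟩)
  obtain ⟨b, i, hi1, hi2, hi3⟩ := exists_start (pE : Equiv.Perm P.FSt)
  have hk4 : 4 ≤ k := by omega
  -- the columns
  let g : P.FSt → ℕ → ℤ := fun r x => vl (C.wd r x) - (if shc k sp r x then 1 else 0)
  let f : P.FSt → ℤ := fun r => ∑ x ∈ Finset.range k, g r x
  let G : P.FSt → ℤ := fun r => ∑ j ∈ Finset.range (i r), f ((pE^[j]) (b r))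
  have hb : ∀ r, IsV r ∧ C.core r.facet → IsV (b r) ∧ C.core (b r).facet := by
    intro r hr
    have h1 : ∀ (j : ℕ) (c : P.FSt), IsV ((pE^[j]) c) → IsV c := by
      intro j
      induction j with
      | zero => exact fun c h => h
      | succ j ih =>
        intro c h
        rw [iterate_succ_apply'] at h
        exact ih c ((IsV_stE _).1 h)
    have h2 : ∀ (j : ℕ) (c : P.FSt), IsV c → C.core ((pE^[j]) c).facet → C.core c.facet := by
      intro j
      induction j with
      | zero => exact fun c _ h => h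
      | succ j ih =>
        intro c hc h
        rw [iterate_succ_apply] at h
        exact (C.core_E c hc).1 (ih _ ((IsV_stE c).2 hc) h)
    have h3 : IsV (b r) := h1 (i r) (b r) (by rw [hi2]; exact hr.1)
    exact ⟨h3, h2 (i r) (b r) h3 (by rw [hi2]; exact hr.2)⟩
  -- shift columns on a cycle
  have hshift : ∀ r, IsV r → ∑ j ∈ Finset.range (minimalPeriod pE r),
      ∑ x ∈ Finset.range k, (if shc k sp ((pE^[j]) r) x then (1 : ℤ) else 0) = 2 := by
    intro r hr
    obtain ⟨a, ⟨ha1, ha2⟩, ha3⟩ := hsp r hr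
    obtain ⟨n, h0, h1, h2⟩ := exists_pos pE ha1
    have hrep : ∃ m, m < minimalPeriod pE r ∧ (pE^[m]) r = a := by
      rw [Equiv.Perm.coe_pow] at h2
      rcases Nat.lt_or_ge n (minimalPeriod pE r) with h3 | h3
      · exact ⟨n, h3, h2⟩
      · refine ⟨0, minimalPeriod_pos' pE r, ?_⟩
        have h4 : n = minimalPeriod pE r := le_antisymm h1 h3
        rw [h4, iterate_minimalPeriod] at h2
        exact h2
    obtain ⟨m, hm1, hm2⟩ := hrep
    rw [Finset.sum_eq_single_of_mem m (Finset.mem_range.2 hm1)]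
    · rw [hm2]
      exact (shc_sum_facet hk4 sp a).1 ha2
    · intro j hj hjm
      apply Finset.sum_eq_zero
      intro x _
      apply (shc_sum_facet hk4 sp _).2
      intro h5
      apply hjm
      have h6 : (pE^[j]) r = a := by
        apply ha3
        refine ⟨⟨j, ?_⟩, h5⟩
        rw [zpow_natCast, Equiv.Perm.coe_pow]
      exact iterate_injOn_Iio_minimalPeriod (Set.mem_Iio.2 (Finset.mem_range.1 hj))
        (Set.mem_Iio.2 hm1) (h6.trans hm2.symm)
  have hzero : ∀ r, IsV r ∧ C.core r.facet →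
      ∑ j ∈ Finset.range (minimalPeriod pE r), f ((pE^[j]) r) = 0 := by
    intro r hr
    have h1 := hW.tot r hr.1 hr.2
    have h2 := C.wsum_gen r (minimalPeriod pE r) (x := 0) (Nat.zero_le k)
    rw [Finset.sum_range_zero, add_zero, add_zero, h1] at h2
    have h3 := hshift r hr.1
    show ∑ j ∈ Finset.range (minimalPeriod pE r), ∑ x ∈ Finset.range k,
      (vl (C.wd ((pE^[j]) r) x) - (if shc k sp ((pE^[j]) r) x then 1 else 0)) = 0
    simp only [Finset.sum_sub_distrib]
    rw [← h2, h3]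
    norm_num
  -- the value before the base is added
  let V : P.FSt → ℕ → ℤ := fun r x => G r + ∑ y ∈ Finset.range x, g r y
  have hVx : ∀ r x, V r (x + 1) = V r x + g r x := by
    intro r x
    show G r + ∑ y ∈ Finset.range (x + 1), g r y = G r + ∑ y ∈ Finset.range x, g r y + g r x
    rw [Finset.sum_range_succ, add_assoc]
  have hVE : ∀ r, IsV r ∧ C.core r.facet → V r.stE 0 = V r k := by
    intro r hr
    have h1 := pot_step hi2 hi3 f r (hzero _ (hb r hr))
    show G r.stE + ∑ y ∈ Finset.range 0, g r.stE y = G r + f r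
    rw [Finset.sum_range_zero, add_zero]
    exact h1
  have hVle : ∀ r x, IsV r ∧ C.core r.facet → x ≤ k → -((B : ℤ) + 2) ≤ V r x ∧ V r x ≤ B := by
    intro r x hr hx
    have hbr := hb r hr
    have h1 := hi1 r
    have hle : i r * k + x ≤ minimalPeriod pE (b r) * k := by
      have : (i r + 1) * k ≤ minimalPeriod pE (b r) * k := Nat.mul_le_mul_right k h1
      rw [Nat.succ_mul] at this
      omega
    have h2 := hW.bd (b r) 0 (i r * k + x) hbr.1 hbr.2 (by omega) hle
    have h3 := C.wsum_gen (b r) (i r) hx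
    rw [hi2 r] at h3
    -- the shift columns before
    let q : ℕ → ℤ := fun j => ∑ x ∈ Finset.range k,
      (if shc k sp ((pE^[j]) (b r)) x then (1 : ℤ) else 0)
    have hnn : ∀ (s : P.FSt) y, (0 : ℤ) ≤ if shc k sp s y then (1 : ℤ) else 0 := by
      intro s y; split_ifs <;> norm_num
    have hq : ∀ j, 0 ≤ q j := fun j => Finset.sum_nonneg fun y _ => hnn _ y
    have h4 := sum_nonneg_le (n := i r + 1) (m := minimalPeriod pE (b r)) h1 q hq
    have h5 := hshift (b r) hbr.1
    have h6 := sum_nonneg_le hx (fun y => if shc k sp r y then (1 : ℤ) else 0) (hnn r)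
    have h7 := sum_nonneg_le (n := i r) (m := i r) le_rfl q hq
    have h8 : ∑ j ∈ Finset.range (i r + 1), q j = ∑ j ∈ Finset.range (i r), q j +
        ∑ y ∈ Finset.range k, (if shc k sp r y then (1 : ℤ) else 0) := by
      rw [Finset.sum_range_succ]
      congr 1
      show ∑ x ∈ Finset.range k, (if shc k sp ((pE^[i r]) (b r)) x then (1 : ℤ) else 0) = _
      rw [hi2]
    have h9 : V r x = C.wsum (b r, 0) (i r * k + x) - ∑ j ∈ Finset.range (i r), q j -
        ∑ y ∈ Finset.range x, (if shc k sp r y then (1 : ℤ) else 0) := by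
      rw [h3]
      show ∑ j ∈ Finset.range (i r), ∑ y ∈ Finset.range k,
        (vl (C.wd ((pE^[j]) (b r)) y) - (if shc k sp ((pE^[j]) (b r)) y then 1 else 0)) +
        ∑ y ∈ Finset.range x, (vl (C.wd r y) - (if shc k sp r y then 1 else 0)) = _
      simp only [Finset.sum_sub_distrib]
      show _ = _ - ∑ j ∈ Finset.range (i r), ∑ x ∈ Finset.range k,
        (if shc k sp ((pE^[j]) (b r)) x then (1 : ℤ) else 0) - _
      ring
    have h10 := abs_le.1 h2
    have h5' : ∑ j ∈ Finset.range (minimalPeriod pE (b r)), q j = 2 := h5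
    constructor
    · rw [h9]; linarith [h10.1, h4.2, h6.2]
    · rw [h9]; linarith [h10.2, h7.1, h6.1]
  refine ⟨{ hk := hk, hk4 := hk4, sp := sp, sp_ex := fun r h _ => hsp r h,
            sp_nsp := fun f h1 h2 h3 => hspn f h2 ⟨h1, h3⟩,
            H := fun r x => (V r x + (B + 2)).toNat, H_le := ?_, H_x := ?_, H_E := ?_,
            t := fun _ => true, t_E := fun _ => rfl, t_r := fun _ => rfl }⟩
  · intro r x h1 h2 hx
    have := hVle r x ⟨h1, h2⟩ hx
    omega
  · intro r x h1 h2 hx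
    have h3 := hVle r x ⟨h1, h2⟩ hx.le
    have h4 := hVle r (x + 1) ⟨h1, h2⟩ hx
    have h5 := hVx r x
    have h6 : g r x = vl (C.wd r x) - (if shc k sp r x then 1 else 0) := rfl
    rw [Int.toNat_of_nonneg (by omega), Int.toNat_of_nonneg (by omega)]
    omega
  · intro r h1 h2
    show (V r.stE 0 + (B + 2)).toNat = (V r k + (B + 2)).toNat
    rw [hVE r ⟨h1, h2⟩]

/-- another choice of the parities -/
def Rims.withT {C : JCert P k} {D : ℕ} (R : C.Rims D) (t : P.FSt → Bool)
    (h1 : ∀ s, t s.stE = t s) (h2 : ∀ s, t s.r2 = t s) : C.Rims D :=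
  { R with t := t, t_E := h1, t_r := h2 }

end JCert

end Pool.Agent.MP42G
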