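import Pool.Agent.MP42.G.Glue
import Pool.Agent.MP42.G.Track2
import Pool.Agent.MP42.Geo

/-!
# GRT: connectivity and assembly (owner helper55)
-/

set_option autoImplicit false
set_option linter.unusedSectionVars false

namespace Pool.Agent.MP42G

open Pool.Agent.Helper55.UNF Pool.Agent.Helper55.UNF.GridSolid

variable {P : GridSolid}

/-- the half turn reverses the walk -/
lemma sameCycle_r2 {r a : P.FSt} (h : (pE : Equiv.Perm P.FSt).SameCycle r a) :
    (pE : Equiv.Perm P.FSt).SameCycle r.r2 a.r2 := by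
  obtain ⟨n, rfl⟩ := h.exists_nat_pow_eq
  induction n with
  | zero => exact Equiv.Perm.SameCycle.refl _ _
  | succ n ih =>
    have ih' := ih (Equiv.Perm.SameCycle.refl _ _ |>.trans ⟨n, by rw [zpow_natCast]⟩)
    refine ih'.trans ?_
    rw [pow_succ', Equiv.Perm.mul_apply]
    apply Equiv.Perm.SameCycle.symm
    refine ⟨1, ?_⟩
    rw [zpow_one]
    exact FSt.stE_inv _

namespace JCert

variable {k : ℕ} {C : JCert P k}

/-! ## Every rim has a strand that is never closed -/

lemma wsum_add (q : P.FSt × ℕ) (m n : ℕ) :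
    C.wsum q (m + n) = C.wsum q m + C.wsum ((nx k)^[m] q) n := by
  unfold wsum
  rw [Finset.sum_range_add]
  congr 1
  apply Finset.sum_congr rfl
  intro j _
  rw [Nat.add_comm m j, Function.iterate_add_apply]

lemma iter_mul (hk : 0 < k) (r : P.FSt) (m : ℕ) : (nx k)^[m * k] (r, 0) = ((pE ^ m) r, 0) := by
  induction m with
  | zero => simp
  | succ m ih =>
    rw [Nat.succ_mul, Nat.add_comm, Function.iterate_add_apply, ih]
    have := iter_facet (k := k) ((pE ^ m) r) hk
    rw [Nat.sub_zero] at this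
    rw [this, pow_succ', Equiv.Perm.mul_apply]
    rfl

lemma same_iter (q : P.FSt × ℕ) (n : ℕ) : pE.SameCycle q.1 ((nx k)^[n] q).1 := by
  induction n with
  | zero => exact Equiv.Perm.SameCycle.refl _ _
  | succ n ih =>
    rw [Function.iterate_succ_apply']
    unfold nx
    split_ifs
    · exact ih
    · exact Equiv.Perm.sameCycle_apply_right.2 ih

theorem exists_unmatched (hk : 0 < k) {B : ℕ} (hW : C.Words B) {r : P.FSt} (hV : IsV r)
    (hC : C.core r.facet) : ∃ q : P.FSt × ℕ, pE.SameCycle r q.1 ∧ IsV q.1 ∧ C.core q.1.facet ∧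
      q.2 < k ∧ C.Unmatched q := by
  set L := Function.minimalPeriod pE r * k with hL
  have hLp : 0 < L := Nat.mul_pos (Pool.Agent.MP42.minimalPeriod_pos' pE r) hk
  have hper : (nx k)^[L] (r, 0) = (r, 0) := by
    rw [hL, iter_mul hk, Pool.Agent.MP42.pow_minimalPeriod]
  have htot : C.wsum (r, 0) L = 2 := hW.tot r hV hC
  have hm : ∀ m : ℕ, ∀ n, C.wsum (r, 0) (m * L + n) = 2 * m + C.wsum (r, 0) n := by
    intro m
    induction m with
    | zero => intro n; simp
    | succ m ih =>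
      intro n
      rw [show (m + 1) * L + n = L + (m * L + n) by ring, wsum_add, htot, hper, ih]
      push_cast
      ring
  have hbig : ∀ n, (B + 1) * L ≤ n → 1 ≤ C.wsum (r, 0) n := by
    intro n hn
    have e1 : n = n / L * L + n % L := by
      rw [Nat.mul_comm]; exact (Nat.div_add_mod n L).symm
    rw [e1, hm]
    have h1 := hW.bd r 0 (n % L) hV hC hk (Nat.mod_lt _ hLp).le
    have h2 : B + 1 ≤ n / L := (Nat.le_div_iff_mul_le hLp).2 hn
    have h3 := (abs_le.1 h1).1
    have h4 : ((B + 1 : ℕ) : ℤ) ≤ ((n / L : ℕ) : ℤ) := by exact_mod_cast h2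
    push_cast at h4 h3 ⊢
    linarith
  classical
  set p : ℕ → Prop := fun n => C.wsum (r, 0) n ≤ 0 with hp
  have h0 : p 0 := by
    show C.wsum (r, 0) 0 ≤ 0
    unfold wsum; simp
  set n0 := Nat.findGreatest p ((B + 1) * L) with hn0
  have hn1 : p n0 := Nat.findGreatest_spec (P := p) (Nat.zero_le _) h0
  have hgt : ∀ n, n0 < n → 1 ≤ C.wsum (r, 0) n := by
    intro n hn
    rcases Nat.lt_or_ge n ((B + 1) * L) with h | h
    · have := Nat.findGreatest_is_greatest hn h.le
      have h' : ¬ (C.wsum (r, 0) n ≤ 0) := this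
      omega
    · exact hbig n h
  have ok : Ok C (r, 0) := ⟨⟨hV, hC⟩, hk⟩
  have okn := ok.iter n0
  have hs := wsum_succ (C := C) (r, 0) n0
  have h1 := hgt (n0 + 1) (by omega)
  have h2 : C.wsum (r, 0) n0 ≤ 0 := hn1
  have hvl : vl (C.wd ((nx k)^[n0] (r, 0)).1 ((nx k)^[n0] (r, 0)).2) = 1 ∧
      C.wsum (r, 0) n0 = 0 := by
    rcases vl_cases (C.wd ((nx k)^[n0] (r, 0)).1 ((nx k)^[n0] (r, 0)).2) with h | h | h <;>
      rw [h] at hs <;> constructor <;> omega
  refine ⟨(nx k)^[n0] (r, 0), same_iter (k := k) (r, 0) n0, okn.1.1, okn.1.2, okn.2,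
    vl_n.1 hvl.1, ?_⟩
  intro j hj
  have h3 := wsum_add (C := C) (r, 0) n0 j
  have h4 := hgt (n0 + j) (by omega)
  rw [hvl.2] at h3
  linarith

/-! ## The surface is connected -/

/-- the value of the facets -/
structure QC (C : JCert P k) (Q : P.FSt → Prop) : Prop where
  fac : ∀ s, ¬ C.core s.facet → (Q s ↔ Q (C.can s.facet))
  adj : ∀ s, ¬ C.core s.facet → ¬ C.core s.stE.facet → (Q s ↔ Q s.stE)
  rim : ∀ r, IsV r → C.core r.facet → (Q r ↔ Q r.stE)
  link : ∀ r, IsV r → C.core r.facet → (Q r ↔ Q r.r2.stN)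
  two : ∀ r, IsV r → C.core r.facet → (Q r ↔ Q r.r2)

lemma QC.core_can {Q : P.FSt → Prop} (h : QC C Q) {r : P.FSt} (hV : IsV r)
    (hC : C.core r.facet) : Q r ↔ Q (C.can r.facet) := by
  rcases C.can_or ⟨hV, hC⟩ with h1 | h1
  · rw [h1]
  · have h2 : C.can r.facet = r.r2 := h1
    rw [h2]
    exact h.two r hV hC

lemma n_rR (s : P.FSt) : s.rR.1.n = s.1.e := by
  show cross s.1.d (opp (cross s.1.d s.1.e)) = s.1.e
  exact cross_opp_cross _ _ s.2.2

lemma e_or {r : P.FSt} (hV : ¬ IsV r) (hd : r.1.d.1 ≠ 2) : r.1.e.1 = 2 := by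
  unfold IsV at hV
  have h := r.2.2
  have hV' : ¬ (cross r.1.d r.1.e).1 = 2 := hV
  generalize r.1.d = d at *
  generalize r.1.e = e at *
  clear hV
  revert d e
  decide

lemma d_ne {r : P.FSt} (hV : IsV r) : r.1.d.1 ≠ 2 := by
  unfold IsV at hV
  have hV' : (cross r.1.d r.1.e).1 = 2 := hV
  have := cross_axis_left r.1.d r.1.e r.2.2
  rw [hV'] at this
  exact this.symm

lemma d_core {f : P.Facet} (h : C.core f) : f.1.2.1 ≠ 2 := by
  have h1 := d_ne (C.can_core f h)
  have h2 := C.can_facet f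
  have h3 : (C.can f).1.d = f.1.2 := congrArg (fun f : P.Facet => f.1.2) h2
  rwa [h3] at h1

lemma QC.step {Q : P.FSt → Prop} (h : QC C Q) (s : P.FSt) (hs : C.core s.facet ∨ IsV s) :
    Q (C.can s.facet) ↔ Q (C.can s.stE.facet) := by
  by_cases hV : IsV s
  · by_cases hC : C.core s.facet
    · rw [← h.core_can hV hC, h.rim s hV hC]
      exact h.core_can ((IsV_stE s).2 hV) ((C.core_E s hV).2 hC)
    · have hC' : ¬ C.core s.stE.facet := fun h' => hC ((C.core_E s hV).1 h')
      rw [← h.fac s hC, h.adj s hC hC']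
      exact h.fac _ hC'
  · have hC : C.core s.facet := hs.resolve_right hV
    have he : s.1.e.1 = 2 := e_or hV (d_core hC)
    -- the rim state
    have hr : IsV s.rR := by
      unfold IsV
      rw [n_rR]; exact he
    have hL : IsV s.rL := by
      have : s.rL = s.rR.r2 := (FSt.rR_r2 s).symm
      rw [this, IsV_r2]; exact hr
    have h1 := h.link s.rL hL hC
    have e1 : s.rL.r2.stN = s.stE.rR := by
      rw [FSt.rL_r2]
      show s.rR.rL.stE.rR = s.stE.rR
      rw [FSt.rR_rL]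
    rw [e1] at h1
    have h2 : Q s.rL ↔ Q (C.can s.facet) := h.core_can hL hC
    rw [← h2, h1]
    by_cases hC' : C.core s.stE.facet
    · have hV' : IsV s.stE.rR := by
        unfold IsV
        rw [n_rR]
        refine e_or ?_ (d_core hC')
        rw [IsV_stE]
        exact hV
      exact h.core_can (r := s.stE.rR) hV' hC'
    · exact h.fac s.stE.rR hC'

theorem QC.const {Q : P.FSt → Prop} (h : QC C Q) (hP : P.IsOrthogonalPolyhedron)
    (f g : P.Facet) : Q (C.can f) ↔ Q (C.can g) := by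
  obtain ⟨w⟩ := hP.2.preconnected f g
  induction w with
  | nil => exact Iff.rfl
  | @cons u v w hadj _ ih =>
    rw [← ih]
    obtain ⟨s, hs1, hs2⟩ := Pool.Agent.MP42.Geo.exists_state_of_adj hP.1 hadj
    rw [← hs1, ← hs2]
    by_cases h1 : C.core s.facet ∨ IsV s
    · exact h.step s h1
    · push Not at h1
      by_cases h2 : C.core s.stE.facet
      · have h3 := h.step s.stE.r2 (Or.inl h2)
        rw [FSt.stE_inv, FSt.facet_r2, FSt.facet_r2] at h3
        exact h3.symm
      · rw [← h.fac s h1.1, h.adj s h1.1 h2]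
        exact h.fac _ h2


/-! ## Assembly -/

section Assembly

variable {D : ℕ} {R : C.Rims D} {ψ χ : P.Facet → ℕ → ℕ → Prop}

/-- values in the frame of the rim state give values on the facet -/
lemma vS_can {f : P.Facet} (x y : ℕ) : C.vS ψ (C.can f) x y ↔ ψ f x y := by
  unfold vS
  rw [if_pos (C.can_can f), C.can_facet]

lemma hS_can {f : P.Facet} (x y : ℕ) : C.hS χ (C.can f) x y ↔ χ f x y := by
  unfold hS
  rw [if_pos (C.can_can f), C.can_facet]

/-- all values are equal -/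
theorem const_of_port (hP : P.IsOrthogonalPolyhedron) {B : ℕ} (hW : C.Words B) (hC : C.Conn)
    (I : R.InvF ψ χ)
    (hport : ∀ a, IsV a → C.core a.facet → R.sp a.facet → (R.port χ a 0 ↔ R.port χ a 1)) :
    ∃ c : Prop, (∀ f x y, x ≤ k → y < k → R.prF f x y = true → (ψ f x y ↔ c)) ∧
      (∀ f x y, x < k → y ≤ k → R.laF f x y ≠ Ln.z → (χ f x y ↔ c)) := by
  have hk : 0 < k := by have := R.hk4; omega
  have RI := I.rinv
  have hport' : ∀ a j, IsV a → C.core a.facet → R.sp a.facet → j < 2 →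
      (R.port χ a j ↔ R.port χ a 0) := by
    intro a j h1 h2 h3 h4
    have h5 : j = 0 ∨ j = 1 := by omega
    rcases h5 with rfl | rfl
    · exact Iff.rfl
    · exact (hport a h1 h2 h3).symm
  -- the values of the feet that are never closed
  have hU : ∀ (r : P.FSt) (x : ℕ) (a : P.FSt), IsV r → C.core r.facet → x < k →
      C.Unmatched (r, x) → pE.SameCycle r a → R.sp a.facet →
      (C.fv χ r x ↔ R.port χ a 0) := by
    intro r x a hV hCo hx hu ha hsp
    obtain ⟨b, j, hb1, hb2, hj, hb3⟩ := unmatched_port RI hV hCo hx hu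
    obtain ⟨c, -, hc⟩ := R.sp_ex r hV hCo
    have e1 : b = a := (hc b ⟨hb1, hb2⟩).trans (hc a ⟨ha, hsp⟩).symm
    subst e1
    have hVb : IsV b ∧ C.core b.facet := by
      obtain ⟨n, hn⟩ := ha.exists_nat_pow_eq
      rw [← hn]; exact ok_pow RI ⟨hV, hCo⟩ n
    rw [hb3]
    exact hport' b j hVb.1 hVb.2 hb2 hj
  have hInv : C.Inv ψ χ := I.inv (fun r x q' h1 h2 h3 h4 => matched_of_inv RI h1 h2 h3 h4)
  have hEq2 : C.Eq2 χ := by
    intro r x r' x' hV hCo hs hx hx' hu hu'
    obtain ⟨a, ⟨ha1, ha2⟩, -⟩ := R.sp_ex r hV hCo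
    have hV' : IsV r' ∧ C.core r'.facet := by
      obtain ⟨n, hn⟩ := hs.exists_nat_pow_eq
      rw [← hn]; exact ok_pow RI ⟨hV, hCo⟩ n
    rw [hU r x a hV hCo hx hu ha1 ha2, hU r' x' a hV'.1 hV'.2 hx' hu' (hs.symm.trans ha1) ha2]
  obtain ⟨Q, hQ⟩ := hC ψ χ hInv hEq2
  have hQs : ∀ r a, IsV r → C.core r.facet → pE.SameCycle r a → (Q r ↔ Q a) := by
    intro r a hV hCo hs
    obtain ⟨n, rfl⟩ := hs.exists_nat_pow_eq
    clear hs
    induction n with
    | zero => exact Iff.rfl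
    | succ n ih =>
      rw [ih, pow_succ', Equiv.Perm.mul_apply]
      have := ok_pow RI ⟨hV, hCo⟩ n
      exact hQ.rim _ this.1 this.2
  have hQp : ∀ r a, IsV r → C.core r.facet → pE.SameCycle r a → R.sp a.facet →
      (Q r ↔ R.port χ a 0) := by
    intro r a hV hCo hs hsp
    obtain ⟨q, h1, h2, h3, h4, h5⟩ := exists_unmatched hk hW hV hCo
    rw [hQs r q.1 hV hCo h1, ← hQ.feet q.1 q.2 h2 h3 h4 (by rw [h5.1]; decide)]
    exact hU q.1 q.2 a h2 h3 h4 h5 (h1.symm.trans hs) hsp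
  have hQ2 : ∀ r, IsV r → C.core r.facet → (Q r ↔ Q r.r2) := by
    intro r hV hCo
    obtain ⟨a, ⟨ha1, ha2⟩, -⟩ := R.sp_ex r hV hCo
    have hVa : IsV a ∧ C.core a.facet := by
      obtain ⟨n, hn⟩ := ha1.exists_nat_pow_eq
      rw [← hn]; exact ok_pow RI ⟨hV, hCo⟩ n
    have hr2 := Rims.vr2 ⟨hV, hCo⟩
    have ha2' := Rims.vr2 hVa
    rw [hQp r a hV hCo ha1 ha2, hQp r.r2 a.r2 hr2.1 hr2.2 (sameCycle_r2 ha1) ha2]
    rw [through RI hVa ha2 (j := 0) (by omega)]
    exact hport' a.r2 _ ha2'.1 ha2'.2 ha2 (by split_ifs <;> omega)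
  have hQC : QC C Q := ⟨hQ.fac, hQ.adj, hQ.rim, hQ.link, hQ2⟩
  have J : QInv C χ Q := ⟨hQ.rim, hQ2, hQ.feet⟩
  have hne : Nonempty P.Facet := hP.2.nonempty
  refine ⟨Q (C.can (Classical.choice hne)), ?_, ?_⟩
  · intro f x y hx hy hp
    rw [← hQC.const hP f]
    by_cases hf : C.core f
    · rw [R.prF_core hf] at hp
      rw [← vS_can (C := C) (ψ := ψ) x y]
      exact all_pr RI J (C.hcan hf) hx hp
    · rw [R.prF_not hf] at hp
      exact hQ.ver f x y hf hx hy hp
  · intro f x y hx hy hp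
    rw [← hQC.const hP f]
    by_cases hf : C.core f
    · rw [R.laF_core hf] at hp
      rw [← hS_can (C := C) (χ := χ) x y]
      exact all_la RI J (C.hcan hf) hx hy hp
    · rw [R.laF_not hf] at hp
      exact hQ.hor f x y hf hx hy hp

end Assembly

/-- the general reduction theorem, for given heights and parities -/
theorem grt_aux (hP : P.IsOrthogonalPolyhedron) {B D : ℕ} (hW : C.Words B) (hC : C.Conn)
    (R : C.Rims D) (h5 : 0 < 5 * k)
    (hport : ∀ ψ χ, C.Inv ψ χ → RInv R ψ χ → ∀ a, IsV a → C.core a.facet → R.sp a.facet →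
      (R.port χ a 0 ↔ R.port χ a 1)) : (P.refine (5 * k) h5).HasEdgeUnfolding :=
  (R.tab hW hP.2.nonempty (fun ψ χ I => const_of_port hP hW hC I (fun a h1 h2 h3 =>
    hport ψ χ (I.inv (fun r x q' h1 h2 h3 h4 => matched_of_inv I.rinv h1 h2 h3 h4)) I.rinv
      a h1 h2 h3))).hasEdgeUnfolding

end JCert

end Pool.Agent.MP42G
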