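import Pool.Agent.MP42.G.Main0
import Pool.Agent.MP42.G.Height
import Pool.Agent.Helper48.UNF.Switch

/-!
# GRT: flags and switches (owner helper48)

Flags are the ends of the pieces of the curve: the used sides of the cells that are not core, the
feet on the core walls, the two ends of the strands of level `l` in every column of a rim, and the
ports.  `mt` goes to the other end of the piece, `ac` to the flag at the same unit edge.
-/

set_option autoImplicit false
set_option linter.unusedSectionVars false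

namespace Pool.Agent.MP42G

open Pool.Agent.Helper55.UNF Pool.Agent.Helper55.UNF.GridSolid

variable {P : GridSolid}

/-! ## The four rotations of a state -/

lemma rot4 {s t : P.FSt} (h : s.facet = t.facet) : s = t ∨ s = t.r2 ∨ s = t.rR ∨ s = t.rL := by
  have hd : s.1.d = t.1.d := congrArg (fun f : P.Facet => f.1.2) h
  have hc : s.1.c = t.1.c := congrArg (fun f : P.Facet => f.1.1) h
  have key : s.1.e = t.1.e ∨ s.1.e = opp t.1.e ∨ s.1.e = opp (cross t.1.d t.1.e) ∨
      s.1.e = cross t.1.d t.1.e := by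
    have h1 := s.2.2
    have h2 := t.2.2
    rw [hd] at h1
    generalize s.1.e = a at *
    generalize t.1.e = b at *
    generalize t.1.d = d at *
    clear hc hd h
    revert a b d
    decide
  rcases key with h1 | h1 | h1 | h1
  · exact Or.inl (FSt.ext' (St.ext hc hd h1))
  · exact Or.inr (Or.inl (FSt.ext' (St.ext hc hd h1)))
  · exact Or.inr (Or.inr (Or.inl (FSt.ext' (St.ext hc hd h1))))
  · exact Or.inr (Or.inr (Or.inr (FSt.ext' (St.ext hc hd h1))))

lemma e_ne_opp (d : Dir) : d ≠ opp d := by revert d; decide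

lemma r2_ne (s : P.FSt) : s.r2 ≠ s := by
  intro h
  have h1 : opp s.1.e = s.1.e := congrArg (fun s : P.FSt => s.1.e) h
  exact e_ne_opp _ h1.symm

lemma rL_ne (s : P.FSt) : s.rL ≠ s := by
  intro h
  have h1 : cross s.1.d s.1.e = s.1.e := congrArg (fun s : P.FSt => s.1.e) h
  have h2 := s.2.2
  generalize s.1.d = d at *
  generalize s.1.e = e at *
  clear h
  revert d e
  decide

lemma rR_ne (s : P.FSt) : s.rR ≠ s := by
  intro h
  have h1 := congrArg FSt.rL h
  rw [FSt.rR_rL] at h1
  exact rL_ne _ h1.symm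

lemma rL_ne_rR (s : P.FSt) : s.rL ≠ s.rR := by
  intro h
  have h1 := congrArg FSt.rL h
  rw [FSt.rR_rL, FSt.rL_rL] at h1
  exact r2_ne _ h1

lemma rL_ne_r2 (s : P.FSt) : s.rL ≠ s.r2 := by
  intro h
  have h1 := congrArg FSt.rR h
  rw [FSt.rL_rR, FSt.r2_rR] at h1
  exact rL_ne _ h1.symm

lemma rR_ne_r2 (s : P.FSt) : s.rR ≠ s.r2 := by
  intro h
  have h1 := congrArg FSt.rL h
  rw [FSt.rR_rL, FSt.r2_rL] at h1
  exact rR_ne _ h1.symm

namespace JCert

variable {k : ℕ} (C : JCert P k)

/-! ## Sides of cells -/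

/-- the cell and the side (in the canonical frame) of the east side of the cell `(x, y)` in the
frame of `s` -/
def frS (s : P.FSt) (x y : ℕ) : ℕ × ℕ × Prt :=
  if s = C.can s.facet then (x, y, Prt.E)
  else if s = (C.can s.facet).r2 then (k - 1 - x, k - 1 - y, Prt.W)
  else if s = (C.can s.facet).rR then (y, k - 1 - x, Prt.S)
  else (k - 1 - y, x, Prt.N)

/-- inverse of `frS` -/
def toS (f : P.Facet) (x y : ℕ) : Prt → P.FSt × ℕ × ℕ
  | Prt.E => (C.can f, x, y)
  | Prt.W => ((C.can f).r2, k - 1 - x, k - 1 - y)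
  | Prt.S => ((C.can f).rR, k - 1 - y, x)
  | Prt.N => ((C.can f).rL, y, k - 1 - x)

lemma frS_can (f : P.Facet) (x y : ℕ) : C.frS (C.can f) x y = (x, y, Prt.E) := by
  unfold frS
  rw [if_pos (C.can_can f).symm]

lemma frS_r2 (f : P.Facet) (x y : ℕ) :
    C.frS (C.can f).r2 x y = (k - 1 - x, k - 1 - y, Prt.W) := by
  unfold frS
  rw [FSt.facet_r2, C.can_facet, if_neg (r2_ne _), if_pos rfl]

lemma frS_rR (f : P.Facet) (x y : ℕ) : C.frS (C.can f).rR x y = (y, k - 1 - x, Prt.S) := by
  unfold frS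
  rw [FSt.facet_rR, C.can_facet, if_neg (rR_ne _), if_neg (rR_ne_r2 _), if_pos rfl]

lemma frS_rL (f : P.Facet) (x y : ℕ) : C.frS (C.can f).rL x y = (k - 1 - y, x, Prt.N) := by
  unfold frS
  rw [FSt.facet_rL, C.can_facet, if_neg (rL_ne _), if_neg (rL_ne_r2 _), if_neg (rL_ne_rR _)]

lemma toS_facet (f : P.Facet) (x y : ℕ) (p : Prt) : (C.toS f x y p).1.facet = f := by
  cases p
  · show (C.can f).r2.facet = f
    rw [FSt.facet_r2, C.can_facet]
  · exact C.can_facet f
  · show (C.can f).rL.facet = f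
    rw [FSt.facet_rL, C.can_facet]
  · show (C.can f).rR.facet = f
    rw [FSt.facet_rR, C.can_facet]

lemma toS_lt {f : P.Facet} {x y : ℕ} (hx : x < k) (hy : y < k) (p : Prt) :
    (C.toS f x y p).2.1 < k ∧ (C.toS f x y p).2.2 < k := by
  cases p <;> simp only [toS] <;> omega

lemma frS_lt (s : P.FSt) {x y : ℕ} (hx : x < k) (hy : y < k) :
    (C.frS s x y).1 < k ∧ (C.frS s x y).2.1 < k := by
  rcases rot4 (C.can_facet s.facet).symm with h | h | h | h
  · rw [h, C.frS_can]; exact ⟨hx, hy⟩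
  · rw [h, C.frS_r2]; constructor <;> simp only <;> omega
  · rw [h, C.frS_rR]; constructor <;> simp only <;> omega
  · rw [h, C.frS_rL]; constructor <;> simp only <;> omega

lemma frS_toS {f : P.Facet} {x y : ℕ} (hx : x < k) (hy : y < k) (p : Prt) :
    C.frS (C.toS f x y p).1 (C.toS f x y p).2.1 (C.toS f x y p).2.2 = (x, y, p) := by
  cases p
  · show C.frS (C.can f).r2 (k - 1 - x) (k - 1 - y) = _
    rw [C.frS_r2]
    congr 2 <;> omega
  · exact C.frS_can f x y
  · show C.frS (C.can f).rL y (k - 1 - x) = _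
    rw [C.frS_rL]
    congr 1
    omega
  · show C.frS (C.can f).rR (k - 1 - y) x = _
    rw [C.frS_rR]
    congr 2
    omega

lemma toS_frS (s : P.FSt) {x y : ℕ} (hx : x < k) (hy : y < k) :
    C.toS s.facet (C.frS s x y).1 (C.frS s x y).2.1 (C.frS s x y).2.2 = (s, x, y) := by
  rcases rot4 (C.can_facet s.facet).symm with h | h | h | h
  · have e : C.frS s x y = (x, y, Prt.E) := by rw [h, C.frS_can]
    rw [e]
    show (C.can s.facet, x, y) = _
    rw [← h]
  · have e : C.frS s x y = (k - 1 - x, k - 1 - y, Prt.W) := by rw [h, C.frS_r2]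
    rw [e]
    show ((C.can s.facet).r2, k - 1 - (k - 1 - x), k - 1 - (k - 1 - y)) = _
    rw [← h]
    congr 2 <;> omega
  · have e : C.frS s x y = (y, k - 1 - x, Prt.S) := by rw [h, C.frS_rR]
    rw [e]
    show ((C.can s.facet).rR, k - 1 - (k - 1 - x), y) = _
    rw [← h]
    congr 2
    omega
  · have e : C.frS s x y = (k - 1 - y, x, Prt.N) := by rw [h, C.frS_rL]
    rw [e]
    show ((C.can s.facet).rL, x, k - 1 - (k - 1 - y)) = _
    rw [← h]
    congr 2
    omega

/-- the side is used -/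
def usS (s : P.FSt) (x y : ℕ) : Bool :=
  usd (C.pr s.facet (C.frS s x y).1 (C.frS s x y).2.1)
    (C.pr s.facet ((C.frS s x y).1 + 1) (C.frS s x y).2.1)
    (C.la s.facet (C.frS s x y).1 ((C.frS s x y).2.1 + 1))
    (C.la s.facet (C.frS s x y).1 (C.frS s x y).2.1) (C.frS s x y).2.2

/-- the value at the side -/
def vlS (ψ χ : P.Facet → ℕ → ℕ → Prop) (s : P.FSt) (x y : ℕ) : Prop :=
  prt (ψ s.facet) (χ s.facet) (C.frS s x y).1 (C.frS s x y).2.1 (C.frS s x y).2.2

/-- the other used side of the cell -/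
def mtS (s : P.FSt) (x y : ℕ) : P.FSt × ℕ × ℕ :=
  C.toS s.facet (C.frS s x y).1 (C.frS s x y).2.1
    (mate (C.pr s.facet (C.frS s x y).1 (C.frS s x y).2.1)
    (C.pr s.facet ((C.frS s x y).1 + 1) (C.frS s x y).2.1)
    (C.la s.facet (C.frS s x y).1 ((C.frS s x y).2.1 + 1))
    (C.la s.facet (C.frS s x y).1 (C.frS s x y).2.1) (C.frS s x y).2.2)

lemma usS_can (f : P.Facet) (x y : ℕ) : C.usS (C.can f) x y = C.pr f (x + 1) y := by
  unfold usS; rw [C.frS_can, C.can_facet]; rfl

lemma usS_r2 (f : P.Facet) (x y : ℕ) :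
    C.usS (C.can f).r2 x y = C.pr f (k - 1 - x) (k - 1 - y) := by
  unfold usS; rw [C.frS_r2, FSt.facet_r2, C.can_facet]; rfl

lemma usS_rR (f : P.Facet) (x y : ℕ) :
    C.usS (C.can f).rR x y = (C.la f y (k - 1 - x) != Ln.z) := by
  unfold usS; rw [C.frS_rR, FSt.facet_rR, C.can_facet]; rfl

lemma usS_rL (f : P.Facet) (x y : ℕ) :
    C.usS (C.can f).rL x y = (C.la f (k - 1 - y) (x + 1) != Ln.z) := by
  unfold usS; rw [C.frS_rL, FSt.facet_rL, C.can_facet]; rfl

variable {ψ χ : P.Facet → ℕ → ℕ → Prop}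

lemma vlS_can (f : P.Facet) (x y : ℕ) : C.vlS ψ χ (C.can f) x y ↔ ψ f (x + 1) y := by
  unfold vlS; rw [C.frS_can, C.can_facet]; exact Iff.rfl

lemma vlS_r2 (f : P.Facet) (x y : ℕ) :
    C.vlS ψ χ (C.can f).r2 x y ↔ ψ f (k - 1 - x) (k - 1 - y) := by
  unfold vlS; rw [C.frS_r2, FSt.facet_r2, C.can_facet]; exact Iff.rfl

lemma vlS_rR (f : P.Facet) (x y : ℕ) :
    C.vlS ψ χ (C.can f).rR x y ↔ χ f y (k - 1 - x) := by
  unfold vlS; rw [C.frS_rR, FSt.facet_rR, C.can_facet]; exact Iff.rfl

lemma vlS_rL (f : P.Facet) (x y : ℕ) :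
    C.vlS ψ χ (C.can f).rL x y ↔ χ f (k - 1 - y) (x + 1) := by
  unfold vlS; rw [C.frS_rL, FSt.facet_rL, C.can_facet]; exact Iff.rfl

/-! ### The mate -/

lemma mtS_spec {s : P.FSt} {x y : ℕ} (hx : x < k) (hy : y < k) (hc : ¬ C.core s.facet)
    (hu : C.usS s x y = true) :
    (C.mtS s x y).2.1 < k ∧ (C.mtS s x y).2.2 < k ∧ (C.mtS s x y).1.facet = s.facet ∧
    C.usS (C.mtS s x y).1 (C.mtS s x y).2.1 (C.mtS s x y).2.2 = true ∧
    C.mtS (C.mtS s x y).1 (C.mtS s x y).2.1 (C.mtS s x y).2.2 = (s, x, y) ∧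
    C.mtS s x y ≠ (s, x, y) ∧
    (C.Inv ψ χ → (C.vlS ψ χ s x y ↔
      C.vlS ψ χ (C.mtS s x y).1 (C.mtS s x y).2.1 (C.mtS s x y).2.2)) := by
  obtain ⟨h1, h2⟩ := C.frS_lt s hx hy
  have h3 := C.toS_frS s hx hy
  have hok := C.ok s.facet hc _ _ h1 h2
  set X := (C.frS s x y).1 with hX
  set Y := (C.frS s x y).2.1 with hY
  set p := (C.frS s x y).2.2 with hp
  have hu' : usd (C.pr s.facet X Y) (C.pr s.facet (X + 1) Y) (C.la s.facet X (Y + 1))
    (C.la s.facet X Y) p = true := hu
  obtain ⟨m1, m2, m3⟩ := usd_mate _ _ _ _ hok p hu'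
  set q := mate (C.pr s.facet X Y) (C.pr s.facet (X + 1) Y) (C.la s.facet X (Y + 1))
    (C.la s.facet X Y) p with hq
  have hm : C.mtS s x y = C.toS s.facet X Y q := rfl
  have hf := C.toS_facet s.facet X Y q
  have hfr := C.frS_toS (f := s.facet) h1 h2 q
  have hlt := C.toS_lt (f := s.facet) h1 h2 q
  rw [hm]
  refine ⟨hlt.1, hlt.2, hf, ?_, ?_, ?_, ?_⟩
  · unfold usS
    rw [hf, hfr]
    exact m1
  · unfold mtS
    rw [hf, hfr]
    simp only
    rw [m2]
    exact h3
  · intro h
    apply m3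
    rw [h] at hfr
    have : C.frS s x y = (X, Y, q) := hfr
    rw [hp, this]
  · intro I
    have := I.cell s.facet hc X Y h1 h2 p hu'
    unfold vlS
    rw [hf, hfr]
    exact this

/-! ### Across a unit edge -/

/-- the flag at the same unit edge in the next cell -/
def acS (k : ℕ) (s : P.FSt) (x y : ℕ) : P.FSt × ℕ × ℕ :=
  if x + 1 < k then (s.r2, k - 2 - x, k - 1 - y) else (s.stE.r2, k - 1, k - 1 - y)

lemma acS_int {s : P.FSt} {x y : ℕ} (h : x + 1 < k) :
    acS k s x y = (s.r2, k - 2 - x, k - 1 - y) := if_pos h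

lemma acS_end {s : P.FSt} {x y : ℕ} (h : ¬ x + 1 < k) :
    acS k s x y = (s.stE.r2, k - 1, k - 1 - y) := if_neg h

lemma acS_acS {s : P.FSt} {x y : ℕ} (hx : x < k) (hy : y < k) :
    acS k (acS k s x y).1 (acS k s x y).2.1 (acS k s x y).2.2 = (s, x, y) := by
  by_cases h : x + 1 < k
  · rw [acS_int h]
    simp only
    rw [acS_int (by omega), FSt.r2_r2]
    congr 2 <;> omega
  · rw [acS_end h]
    simp only
    rw [acS_end (by omega), FSt.stE_inv, FSt.r2_r2]
    congr 2 <;> omega

lemma acS_ne {s : P.FSt} {x y : ℕ} : acS k s x y ≠ (s, x, y) := by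
  by_cases h : x + 1 < k
  · rw [acS_int h]
    intro h1
    exact r2_ne s (congrArg Prod.fst h1)
  · rw [acS_end h]
    intro h1
    have h2 := congrArg FSt.facet (congrArg Prod.fst h1)
    exact FSt.stE_facet_ne s h2

/-- valid sides: used sides of the cells that are not core, and the feet on the core walls -/
def VS (s : P.FSt) (x y : ℕ) : Prop :=
  x < k ∧ y < k ∧ C.usS s x y = true ∧ (C.core s.facet → x + 1 = k ∧ IsV s.rL)

lemma not_V_rL {s : P.FSt} (h : IsV s) : ¬ IsV s.rL := by
  have h1 := s.2.2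
  unfold IsV at h ⊢
  have h' : (cross s.1.d s.1.e).1 = 2 := h
  intro h2
  have h2' : (cross s.1.d (cross s.1.d s.1.e)).1 = 2 := h2
  generalize s.1.d = d at *
  generalize s.1.e = e at *
  clear h h2
  revert d e
  decide

lemma V_rR_rL {s : P.FSt} : IsV s.rR ↔ IsV s.rL := by
  rw [← FSt.rL_r2, IsV_r2]

lemma not_core_of_can {f : P.Facet} (h : C.core f → IsV (C.can f).rL) : ¬ C.core f :=
  fun hc => not_V_rL (C.can_core f hc) (h hc)

lemma not_core_of_r2 {f : P.Facet} (h : C.core f → IsV (C.can f).r2.rL) : ¬ C.core f := by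
  intro hc
  have := h hc
  rw [FSt.r2_rL, V_rR_rL] at this
  exact not_V_rL (C.can_core f hc) this

lemma rL_stE (s : P.FSt) : s.rL.stE = s.stN.rL := by
  show s.rL.stE = s.rL.stE.rR.rL
  rw [FSt.rR_rL]

lemma acS_spec {s : P.FSt} {x y : ℕ} (h : C.VS s x y) :
    C.VS (acS k s x y).1 (acS k s x y).2.1 (acS k s x y).2.2 ∧
    (C.Inv ψ χ → (C.vlS ψ χ s x y ↔
      C.vlS ψ χ (acS k s x y).1 (acS k s x y).2.1 (acS k s x y).2.2)) := by
  obtain ⟨hx, hy, hu, hc⟩ := h
  by_cases hxk : x + 1 < k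
  · rw [acS_int hxk]
    simp only
    have hnc : ¬ C.core s.facet := fun h => by have := (hc h).1; omega
    have key : C.usS s.r2 (k - 2 - x) (k - 1 - y) = C.usS s x y ∧
        (C.vlS ψ χ s x y ↔ C.vlS ψ χ s.r2 (k - 2 - x) (k - 1 - y)) := by
      rcases rot4 (C.can_facet s.facet).symm with h | h | h | h
      · obtain ⟨f, hf⟩ : ∃ f, f = s.facet := ⟨_, rfl⟩
        rw [← hf] at h
        subst h
        rw [C.usS_can, C.usS_r2, C.vlS_can, C.vlS_r2, show k - 1 - (k - 2 - x) = x + 1 by omega,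
          show k - 1 - (k - 1 - y) = y by omega]
        exact ⟨rfl, Iff.rfl⟩
      · obtain ⟨f, hf⟩ : ∃ f, f = s.facet := ⟨_, rfl⟩
        rw [← hf] at h
        subst h
        rw [FSt.r2_r2, C.usS_can, C.usS_r2, C.vlS_can, C.vlS_r2,
          show k - 2 - x + 1 = k - 1 - x by omega]
        exact ⟨rfl, Iff.rfl⟩
      · obtain ⟨f, hf⟩ : ∃ f, f = s.facet := ⟨_, rfl⟩
        rw [← hf] at h
        subst h
        rw [FSt.rR_r2, C.usS_rR, C.usS_rL, C.vlS_rR, C.vlS_rL,
          show k - 1 - (k - 1 - y) = y by omega, show k - 2 - x + 1 = k - 1 - x by omega]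
        exact ⟨rfl, Iff.rfl⟩
      · obtain ⟨f, hf⟩ : ∃ f, f = s.facet := ⟨_, rfl⟩
        rw [← hf] at h
        subst h
        rw [FSt.rL_r2, C.usS_rR, C.usS_rL, C.vlS_rR, C.vlS_rL,
          show k - 1 - (k - 2 - x) = x + 1 by omega]
        exact ⟨rfl, Iff.rfl⟩
    refine ⟨⟨by omega, by omega, by rw [key.1]; exact hu, fun h => absurd h hnc⟩, fun _ => key.2⟩
  · rw [acS_end hxk]
    simp only
    have hxe : x + 1 = k := by omega
    have e0 : k - 1 - (k - 1) = 0 := by omega
    have e1 : k - 1 + 1 = k := by omega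
    have e2 : k - 1 - (k - 1 - y) = y := by omega
    have ex : x = k - 1 := by omega
    subst ex
    rcases rot4 (C.can_facet s.facet).symm with h | h | h | h
    · -- east side
      obtain ⟨f, hf⟩ : ∃ f, f = s.facet := ⟨_, rfl⟩
      rw [← hf] at h hc
      subst h
      have hnc : ¬ C.core f := C.not_core_of_can (fun h => (hc h).2)
      rw [C.usS_can, e1] at hu
      have hex : ∃ g, (C.can f).stE = C.can g ∨ (C.can f).stE = (C.can g).r2 := by
        by_contra hcon
        push Not at hcon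
        have := C.gE' f hnc hcon y hy
        rw [hu] at this
        exact absurd this (by decide)
      obtain ⟨g, hg | hg⟩ := hex
      · have hng : ¬ C.core g := fun h => hnc ((C.core_gE (Or.inl hg)).1 h)
        rw [hg, C.vlS_can, C.vlS_r2, e1, e0, e2]
        refine ⟨⟨by omega, by omega, ?_, fun h => ?_⟩, fun I => I.gE f g hnc hg y hy hu⟩
        · rw [C.usS_r2, e0, e2, ← C.gE f g hnc hg y hy]; exact hu
        · rw [FSt.facet_r2, C.can_facet] at h; exact absurd h hng
      · have hng : ¬ C.core g := fun h => hnc ((C.core_gE (Or.inr hg)).1 h)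
        rw [hg, FSt.r2_r2, C.vlS_can, C.vlS_can, e1]
        refine ⟨⟨by omega, by omega, ?_, fun h => ?_⟩, fun I => I.gEr f g hnc hg y hy hu⟩
        · rw [C.usS_can, e1, ← C.gEr f g hnc hg y hy]; exact hu
        · rw [C.can_facet] at h; exact absurd h hng
    · -- west side
      obtain ⟨f, hf⟩ : ∃ f, f = s.facet := ⟨_, rfl⟩
      rw [← hf] at h hc
      subst h
      have hnc : ¬ C.core f := C.not_core_of_r2 (fun h => (hc h).2)
      rw [C.usS_r2, e0] at hu
      have hex : ∃ g, (C.can f).r2.stE = C.can g ∨ (C.can f).r2.stE = (C.can g).r2 := by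
        by_contra hcon
        push Not at hcon
        have := C.gW' f hnc hcon (k - 1 - y) (by omega)
        rw [hu] at this
        exact absurd this (by decide)
      obtain ⟨g, hg | hg⟩ := hex
      · have hng : ¬ C.core g := fun h => hnc ((C.core_gW (Or.inl hg)).1 h)
        rw [hg, C.vlS_r2, C.vlS_r2, e0, e2]
        refine ⟨⟨by omega, by omega, ?_, fun h => ?_⟩, fun I => ?_⟩
        · rw [C.usS_r2, e0, e2]
          have := C.gWr f g hnc hg (k - 1 - y) (by omega)
          rw [e2] at this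
          rw [← this]; exact hu
        · rw [FSt.facet_r2, C.can_facet] at h; exact absurd h hng
        · have := I.gWr f g hnc hg (k - 1 - y) (by omega) hu
          rw [e2] at this
          exact this
      · have hng : ¬ C.core g := fun h => hnc ((C.core_gW (Or.inr hg)).1 h)
        have hg' : (C.can g).stE = C.can f := by
          have := FSt.stE_inv (C.can f).r2
          rw [hg, FSt.r2_r2, FSt.r2_r2] at this
          exact this
        rw [hg, FSt.r2_r2, C.vlS_can, C.vlS_r2, e0, e1]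
        have hu2 : C.pr g k (k - 1 - y) = true := by
          rw [C.gE g f hng hg' (k - 1 - y) (by omega)]; exact hu
        refine ⟨⟨by omega, by omega, ?_, fun h => ?_⟩, fun I => ?_⟩
        · rw [C.usS_can, e1]; exact hu2
        · rw [C.can_facet] at h; exact absurd h hng
        · exact (I.gE g f hng hg' (k - 1 - y) (by omega) hu2).symm
    · -- south side
      obtain ⟨f, hf⟩ : ∃ f, f = s.facet := ⟨_, rfl⟩
      rw [← hf] at h hc
      subst h
      rw [C.usS_rR, e0] at hu
      have hu' : C.la f y 0 ≠ Ln.z := by simpa using hu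
      have hex : ∃ g, (C.can g).stN = C.can f := by
        by_contra hcon
        push Not at hcon
        exact hu' (C.gS' f hcon y hy)
      obtain ⟨g, hg⟩ := hex
      have hs : (C.can f).rR.stE = (C.can g).rR := by
        have h1 := FSt.stE_inv (C.can g).rL
        rw [rL_stE, hg, FSt.rL_r2, FSt.rL_r2] at h1
        exact h1
      have hu2 : C.la g y k ≠ Ln.z := by rw [C.gN g f hg y hy]; exact hu'
      rw [hs, FSt.rR_r2, C.vlS_rR, C.vlS_rL, e0, e1, e2]
      refine ⟨⟨by omega, by omega, ?_, fun h => ⟨e1, ?_⟩⟩, fun I => ?_⟩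
      · rw [C.usS_rL, e1, e2]; simpa using hu2
      · rw [FSt.facet_rL, C.can_facet] at h
        rw [FSt.rL_rL, IsV_r2]
        exact C.can_core g h
      · exact (I.gN g f hg y hy hu2).symm
    · -- north side
      obtain ⟨f, hf⟩ : ∃ f, f = s.facet := ⟨_, rfl⟩
      rw [← hf] at h hc
      subst h
      rw [C.usS_rL, e1] at hu
      have hu' : C.la f (k - 1 - y) k ≠ Ln.z := by simpa using hu
      have hex : ∃ g, (C.can f).stN = C.can g := by
        by_contra hcon
        push Not at hcon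
        exact hu' (C.gN' f hcon (k - 1 - y) (by omega))
      obtain ⟨g, hg⟩ := hex
      have hu2 : C.la g (k - 1 - y) 0 ≠ Ln.z := by
        rw [← C.gN f g hg (k - 1 - y) (by omega)]; exact hu'
      rw [rL_stE, hg, FSt.rL_r2, C.vlS_rR, C.vlS_rL, e0, e1]
      refine ⟨⟨by omega, by omega, ?_, fun h => ⟨e1, ?_⟩⟩, fun I => ?_⟩
      · rw [C.usS_rR, e0]; simpa using hu2
      · rw [FSt.facet_rR, C.can_facet] at h
        rw [FSt.rR_rL]
        exact C.can_core g h
      · exact I.gN f g hg (k - 1 - y) (by omega) hu'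

/-! ### The feet -/

lemma foot_eq {r : P.FSt} (h : IsV r ∧ C.core r.facet) {y : ℕ} (hy : y < k) :
    C.usS r.rR (k - 1) y = (C.wd r y != Ln.z) ∧ (C.vlS ψ χ r.rR (k - 1) y ↔ C.fv χ r y) := by
  have e0 : k - 1 - (k - 1) = 0 := by omega
  have e1 : k - 1 + 1 = k := by omega
  unfold wd fv
  obtain ⟨f, hf⟩ : ∃ f, f = r.facet := ⟨_, rfl⟩
  rcases C.can_or h with h2 | h2
  · rw [if_pos h2, if_pos h2, ← hf]
    rw [← hf] at h2
    rw [← h2, C.usS_rR, C.vlS_rR, e0]
    exact ⟨rfl, Iff.rfl⟩
  · have h2' : C.can r.facet = r.r2 := h2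
    have h3 : C.can r.facet ≠ r := by
      have := C.can_r2_ne h2
      rwa [FSt.r2_r2] at this
    rw [if_neg h3, if_neg h3, ← hf]
    rw [← hf] at h2'
    have h4 : r.rR = (C.can f).rL := by rw [h2', FSt.r2_rL]
    rw [h4, C.usS_rL, C.vlS_rL, e1]
    exact ⟨rfl, Iff.rfl⟩

end JCert

/-! ## Flags -/

/-- flags -/
inductive Fl (P : GridSolid)
  | c (s : P.FSt) (x y : ℕ)
  | w (r : P.FSt) (x l : ℕ)
  | e (r : P.FSt) (x l : ℕ)
  | n (r : P.FSt) (x : ℕ)

namespace JCert

namespace Rims

variable {k : ℕ} {C : JCert P k} {D : ℕ} (R : C.Rims D)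

/-- the flag exists -/
def Vd : Fl P → Prop
  | .c s x y => C.VS s x y
  | .w r x l => (IsV r ∧ C.core r.facet) ∧ x < k ∧ 1 ≤ l ∧ l ≤ R.H r x
  | .e r x l => (IsV r ∧ C.core r.facet) ∧ x < k ∧ 1 ≤ l ∧ l ≤ R.H r (x + 1)
  | .n r x => (IsV r ∧ C.core r.facet) ∧ x < k ∧ shc k R.sp r x = true

open Classical in
/-- the other end of the piece -/
noncomputable def mt : Fl P → Fl P
  | .c s x y =>
    if C.core s.facet then
      (if C.wd s.rL y = Ln.n then .e s.rL y (R.H s.rL (y + 1)) else .w s.rL y (R.H s.rL y))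
    else .c (C.mtS s x y).1 (C.mtS s x y).2.1 (C.mtS s x y).2.2
  | .w r x l =>
    if shc k R.sp r x = true then (if l = 1 then .n r x else .e r x (l - 1))
    else if C.wd r x = Ln.s ∧ l = R.H r x then .c r.rR (k - 1) x else .e r x l
  | .e r x l =>
    if shc k R.sp r x = true then .w r x (l + 1)
    else if C.wd r x = Ln.n ∧ l = R.H r (x + 1) then .c r.rR (k - 1) x else .w r x l
  | .n r x => .w r x 1

/-- the flag at the same unit edge -/
def ac : Fl P → Fl P
  | .c s x y => .c (acS k s x y).1 (acS k s x y).2.1 (acS k s x y).2.2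
  | .w r x l => if 0 < x then .e r (x - 1) l else .e r.r2.stE.r2 (k - 1) l
  | .e r x l => if x + 1 < k then .w r (x + 1) l else .w r.stE 0 l
  | .n r x => .n r.r2 (c0 k r.r2 + (x - c0 k r))

/-- the value at a flag -/
def vlF (ψ χ : P.Facet → ℕ → ℕ → Prop) : Fl P → Prop
  | .c s x y => C.vlS ψ χ s x y
  | .w r x l => C.vS ψ r x (R.base r - l)
  | .e r x l => C.vS ψ r (x + 1) (R.base r - l)
  | .n r x => C.hS χ r x (R.base r)

variable {R} {ψ χ : P.Facet → ℕ → ℕ → Prop}

lemma not_shc_of_wd {r : P.FSt} (hc : C.core r.facet) {x : ℕ} (hx : x < k)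
    (h : C.wd r x ≠ Ln.z) : shc k R.sp r x = false := by
  cases hs : shc k R.sp r x
  · rfl
  · exact absurd (C.wd_free hc hx (shc_free hs)) h

lemma VS_foot {r : P.FSt} (h : IsV r ∧ C.core r.facet) {x : ℕ} (hx : x < k)
    (hw : C.wd r x ≠ Ln.z) : C.VS r.rR (k - 1) x := by
  refine ⟨by omega, hx, ?_, fun _ => ⟨by omega, ?_⟩⟩
  · rw [(C.foot_eq (ψ := fun _ _ _ => True) (χ := fun _ _ _ => True) h hx).1]
    simpa using hw
  · rw [FSt.rR_rL]; exact h.1

lemma mt_spec {z : Fl P} (hz : R.Vd z) : R.Vd (R.mt z) ∧ R.mt (R.mt z) = z ∧ R.mt z ≠ z ∧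
    (C.Inv ψ χ → RInv R ψ χ → (R.vlF ψ χ z ↔ R.vlF ψ χ (R.mt z))) := by
  classical
  cases z with
  | c s x y =>
    have hz' : C.VS s x y := hz
    obtain ⟨hx, hy, hu, hc⟩ := hz'
    by_cases hco : C.core s.facet
    · obtain ⟨hxk, hV⟩ := hc hco
      have hr : IsV s.rL ∧ C.core s.rL.facet := ⟨hV, hco⟩
      have hxe : x = k - 1 := by omega
      have hs : s.rL.rR = s := FSt.rL_rR s
      have hf := C.foot_eq (ψ := ψ) (χ := χ) hr hy
      rw [hs, ← hxe] at hf
      rw [hu] at hf
      have hw : C.wd s.rL y ≠ Ln.z := by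
        intro h0
        have := hf.1
        rw [h0] at this
        simp at this
      have hns := not_shc_of_wd (R := R) hr.2 hy hw
      have hH := R.H_not hr hy hns
      by_cases hn : C.wd s.rL y = Ln.n
      · have e1 : R.mt (.c s x y) = .e s.rL y (R.H s.rL (y + 1)) := by
          simp only [mt]; rw [if_pos hco, if_pos hn]
        have e2 : R.mt (.e s.rL y (R.H s.rL (y + 1))) = .c s x y := by
          simp only [mt]
          rw [if_neg (by rw [hns]; decide), if_pos ⟨hn, trivial⟩, hs, ← hxe]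
        rw [hn] at hH
        simp only [vl] at hH
        rw [e1, e2]
        refine ⟨⟨hr, hy, by omega, le_rfl⟩, rfl, by simp, fun _ J => ?_⟩
        obtain ⟨-, -, h3⟩ := col_open J hr hy hn
        exact hf.2.trans h3
      · have hs' : C.wd s.rL y = Ln.s := by
          cases hwd : C.wd s.rL y
          · exact absurd hwd hw
          · exact absurd hwd hn
          · rfl
        have e1 : R.mt (.c s x y) = .w s.rL y (R.H s.rL y) := by
          simp only [mt]; rw [if_pos hco, if_neg hn]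
        have e2 : R.mt (.w s.rL y (R.H s.rL y)) = .c s x y := by
          simp only [mt]
          rw [if_neg (by rw [hns]; decide), if_pos ⟨hs', trivial⟩, hs, ← hxe]
        rw [hs'] at hH
        simp only [vl] at hH
        rw [e1, e2]
        refine ⟨⟨hr, hy, by omega, le_rfl⟩, rfl, by simp, fun _ J => ?_⟩
        obtain ⟨-, -, h3⟩ := col_close J hr hy hs'
        exact hf.2.trans h3
    · obtain ⟨m1, m2, m3, m4, m5, m6, m7⟩ := C.mtS_spec (ψ := ψ) (χ := χ) hx hy hco hu
      have e1 : R.mt (.c s x y) = .c (C.mtS s x y).1 (C.mtS s x y).2.1 (C.mtS s x y).2.2 := by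
        simp only [mt]; rw [if_neg hco]
      have hco' : ¬ C.core (C.mtS s x y).1.facet := by rw [m3]; exact hco
      have e2 : R.mt (.c (C.mtS s x y).1 (C.mtS s x y).2.1 (C.mtS s x y).2.2) = .c s x y := by
        simp only [mt]; rw [if_neg hco', m5]
      rw [e1, e2]
      refine ⟨⟨m1, m2, m4, fun h => absurd h hco'⟩, rfl, ?_, fun I _ => m7 I⟩
      intro h
      apply m6
      injection h with h1 h2 h3
      exact Prod.ext h1 (Prod.ext h2 h3)
  | w r x l =>
    obtain ⟨hr, hx, hl1, hl2⟩ : (IsV r ∧ C.core r.facet) ∧ x < k ∧ 1 ≤ l ∧ l ≤ R.H r x := hz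
    have hb := R.H_le_base hr (x := x) hx.le
    have hb' := R.H_le_base hr (x := x + 1) hx
    have htc := (R.tc_pos r).1
    by_cases hs : shc k R.sp r x = true
    · have hH := R.H_sh hr hx hs
      by_cases h1 : l = 1
      · have e1 : R.mt (.w r x l) = .n r x := by
          simp only [mt]; rw [if_pos hs, if_pos h1]
        have e2 : R.mt (.n r x) = .w r x l := by simp only [mt]; rw [h1]
        rw [e1, e2]
        refine ⟨⟨hr, hx, hs⟩, rfl, by simp, fun _ J => ?_⟩
        have h3 := (col_shift J hr hx hs (y := R.base r - 1) (by omega) (by omega)).1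
        rw [show R.base r - 1 + 1 = R.base r by omega] at h3
        rw [h1]
        exact h3
      · have e1 : R.mt (.w r x l) = .e r x (l - 1) := by
          simp only [mt]; rw [if_pos hs, if_neg h1]
        have e2 : R.mt (.e r x (l - 1)) = .w r x l := by
          simp only [mt]; rw [if_pos hs]
          congr 1
          omega
        rw [e1, e2]
        refine ⟨⟨hr, hx, by omega, by omega⟩, rfl, by simp, fun _ J => ?_⟩
        obtain ⟨h3, h4⟩ := col_shift J hr hx hs (y := R.base r - l) (by omega) (by omega)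
        have h5 := h3.trans h4
        rw [show R.base r - l + 1 = R.base r - (l - 1) by omega] at h5
        exact h5
    · have hs' : shc k R.sp r x = false := by
        cases h : shc k R.sp r x
        · rfl
        · exact absurd h hs
      have hH := R.H_not hr hx hs'
      by_cases h1 : C.wd r x = Ln.s ∧ l = R.H r x
      · have e1 : R.mt (.w r x l) = .c r.rR (k - 1) x := by
          simp only [mt]; rw [if_neg hs, if_pos h1]
        have hw : C.wd r x ≠ Ln.z := by rw [h1.1]; decide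
        have e2 : R.mt (.c r.rR (k - 1) x) = .w r x l := by
          simp only [mt]
          rw [FSt.facet_rR, if_pos hr.2, FSt.rR_rL, if_neg (by rw [h1.1]; decide), h1.2]
        rw [e1, e2]
        refine ⟨VS_foot hr hx hw, rfl, by simp, fun _ J => ?_⟩
        obtain ⟨-, -, h3⟩ := col_close J hr hx h1.1
        rw [h1.2]
        exact h3.symm.trans (C.foot_eq (ψ := ψ) (χ := χ) hr hx).2.symm
      · have e1 : R.mt (.w r x l) = .e r x l := by
          simp only [mt]; rw [if_neg hs, if_neg h1]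
        have h2 : ¬ (C.wd r x = Ln.n ∧ l = R.H r (x + 1)) := by
          rintro ⟨h2, h3⟩
          rw [h2] at hH
          simp only [vl] at hH
          omega
        have e2 : R.mt (.e r x l) = .w r x l := by
          simp only [mt]; rw [if_neg hs, if_neg h2]
        have hl3 : l ≤ R.H r (x + 1) := by
          cases hwd : C.wd r x
          · rw [hwd] at hH; simp only [vl] at hH; omega
          · rw [hwd] at hH; simp only [vl] at hH; omega
          · rw [hwd] at hH; simp only [vl] at hH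
            have : l ≠ R.H r x := fun h => h1 ⟨hwd, h⟩
            omega
        rw [e1, e2]
        refine ⟨⟨hr, hx, hl1, hl3⟩, rfl, by simp, fun _ J => ?_⟩
        exact col_straight J hr hx hs' (y := R.base r - l) (by omega) (by omega) (by omega)
  | e r x l =>
    obtain ⟨hr, hx, hl1, hl2⟩ : (IsV r ∧ C.core r.facet) ∧ x < k ∧ 1 ≤ l ∧ l ≤ R.H r (x + 1) := hz
    have hb := R.H_le_base hr (x := x) hx.le
    have hb' := R.H_le_base hr (x := x + 1) hx
    have htc := (R.tc_pos r).1
    by_cases hs : shc k R.sp r x = true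
    · have hH := R.H_sh hr hx hs
      have e1 : R.mt (.e r x l) = .w r x (l + 1) := by
        simp only [mt]; rw [if_pos hs]
      have e2 : R.mt (.w r x (l + 1)) = .e r x l := by
        simp only [mt]; rw [if_pos hs, if_neg (by omega)]
        congr 1
      rw [e1, e2]
      refine ⟨⟨hr, hx, by omega, by omega⟩, rfl, by simp, fun _ J => ?_⟩
      obtain ⟨h3, h4⟩ := col_shift J hr hx hs (y := R.base r - (l + 1)) (by omega) (by omega)
      have h5 := h3.trans h4
      rw [show R.base r - (l + 1) + 1 = R.base r - l by omega] at h5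
      exact h5.symm
    · have hs' : shc k R.sp r x = false := by
        cases h : shc k R.sp r x
        · rfl
        · exact absurd h hs
      have hH := R.H_not hr hx hs'
      by_cases h1 : C.wd r x = Ln.n ∧ l = R.H r (x + 1)
      · have e1 : R.mt (.e r x l) = .c r.rR (k - 1) x := by
          simp only [mt]; rw [if_neg hs, if_pos h1]
        have hw : C.wd r x ≠ Ln.z := by rw [h1.1]; decide
        have e2 : R.mt (.c r.rR (k - 1) x) = .e r x l := by
          simp only [mt]
          rw [FSt.facet_rR, if_pos hr.2, FSt.rR_rL, if_pos h1.1, h1.2]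
        rw [e1, e2]
        refine ⟨VS_foot hr hx hw, rfl, by simp, fun _ J => ?_⟩
        obtain ⟨-, -, h3⟩ := col_open J hr hx h1.1
        rw [h1.2]
        exact h3.symm.trans (C.foot_eq (ψ := ψ) (χ := χ) hr hx).2.symm
      · have e1 : R.mt (.e r x l) = .w r x l := by
          simp only [mt]; rw [if_neg hs, if_neg h1]
        have h2 : ¬ (C.wd r x = Ln.s ∧ l = R.H r x) := by
          rintro ⟨h2, h3⟩
          rw [h2] at hH
          simp only [vl] at hH
          omega
        have e2 : R.mt (.w r x l) = .e r x l := by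
          simp only [mt]; rw [if_neg hs, if_neg h2]
        have hl3 : l ≤ R.H r x := by
          cases hwd : C.wd r x
          · rw [hwd] at hH; simp only [vl] at hH; omega
          · rw [hwd] at hH; simp only [vl] at hH
            have : l ≠ R.H r (x + 1) := fun h => h1 ⟨hwd, h⟩
            omega
          · rw [hwd] at hH; simp only [vl] at hH; omega
        rw [e1, e2]
        refine ⟨⟨hr, hx, hl1, hl3⟩, rfl, by simp, fun _ J => ?_⟩
        exact (col_straight J hr hx hs' (y := R.base r - l) (by omega) (by omega) (by omega)).symm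
  | n r x =>
    obtain ⟨hr, hx, hs⟩ : (IsV r ∧ C.core r.facet) ∧ x < k ∧ shc k R.sp r x = true := hz
    have hb := R.H_le_base hr (x := x) hx.le
    have htc := (R.tc_pos r).1
    have hH := R.H_sh hr hx hs
    have e1 : R.mt (.n r x) = .w r x 1 := by simp only [mt]
    have e2 : R.mt (.w r x 1) = .n r x := by simp only [mt]; rw [if_pos hs, if_pos trivial]
    rw [e1, e2]
    refine ⟨⟨hr, hx, le_rfl, by omega⟩, rfl, by simp, fun _ J => ?_⟩
    have h3 := (col_shift J hr hx hs (y := R.base r - 1) (by omega) (by omega)).1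
    rw [show R.base r - 1 + 1 = R.base r by omega] at h3
    exact h3.symm

/-- the links over the unit edges on a rim -/
lemma ac_e (J : RInv R ψ χ) {r : P.FSt} {x l : ℕ} (hz : R.Vd (.e r x l)) :
    R.vlF ψ χ (.e r x l) ↔ R.vlF ψ χ (ac (k := k) (.e r x l)) := by
  obtain ⟨hr, hx, hl1, hl2⟩ : (IsV r ∧ C.core r.facet) ∧ x < k ∧ 1 ≤ l ∧ l ≤ R.H r (x + 1) := hz
  have hb' := R.H_le_base hr (x := x + 1) hx
  have htc := (R.tc_pos r).1
  have h1 := val_nx J (q := (r, x)) ⟨hr, hx⟩ (y := R.base r - l) (by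
    show R.base r ≤ R.base r - l + R.H r (x + 1)
    omega) (by show R.base r - l < R.base r + R.tc r; omega)
  unfold nx at h1
  by_cases h2 : x + 1 < k
  · have e1 : ac (k := k) (.e r x l) = .w r (x + 1) l := by simp only [ac]; rw [if_pos h2]
    rw [e1]
    exact Iff.rfl
  · have e1 : ac (k := k) (.e r x l) = .w r.stE 0 l := by simp only [ac]; rw [if_neg h2]
    rw [if_neg h2] at h1
    rw [e1]
    show C.vS ψ r (x + 1) (R.base r - l) ↔ C.vS ψ r.stE 0 (R.base r.stE - l)
    rw [R.base_E]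
    exact h1

lemma ac_spec {z : Fl P} (hz : R.Vd z) : R.Vd (ac (k := k) z) ∧ ac (k := k) (ac (k := k) z) = z ∧
    ac (k := k) z ≠ z ∧ (C.Inv ψ χ → RInv R ψ χ → (∀ r x, z ≠ .n r x) →
      (R.vlF ψ χ z ↔ R.vlF ψ χ (ac (k := k) z))) := by
  cases z with
  | c s x y =>
    have hz' : C.VS s x y := hz
    obtain ⟨a1, a2⟩ := C.acS_spec (ψ := ψ) (χ := χ) hz'
    have a3 := acS_acS (s := s) hz'.1 hz'.2.1
    refine ⟨a1, ?_, ?_, fun I _ _ => a2 I⟩
    · show Fl.c _ _ _ = _
      rw [a3]
    · intro h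
      apply acS_ne (k := k) (s := s) (x := x) (y := y)
      injection h with h1 h2 h3
      exact Prod.ext h1 (Prod.ext h2 h3)
  | e r x l =>
    have hz0 := hz
    obtain ⟨hr, hx, hl1, hl2⟩ : (IsV r ∧ C.core r.facet) ∧ x < k ∧ 1 ≤ l ∧ l ≤ R.H r (x + 1) := hz
    by_cases h2 : x + 1 < k
    · have e1 : ac (k := k) (.e r x l) = .w r (x + 1) l := by simp only [ac]; rw [if_pos h2]
      have e2 : ac (k := k) (.w r (x + 1) l) = .e r x l := by
        simp only [ac]; rw [if_pos (by omega)]; rfl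
      have h3 := fun J => ac_e (ψ := ψ) (χ := χ) J hz0
      rw [e1] at h3 ⊢
      rw [e2]
      exact ⟨⟨hr, h2, hl1, hl2⟩, rfl, by simp, fun _ J _ => h3 J⟩
    · have e1 : ac (k := k) (.e r x l) = .w r.stE 0 l := by simp only [ac]; rw [if_neg h2]
      have e2 : ac (k := k) (.w r.stE 0 l) = .e r x l := by
        simp only [ac]
        rw [if_neg (by omega), FSt.stE_inv, FSt.r2_r2]
        congr 1
        omega
      have h3 := fun J => ac_e (ψ := ψ) (χ := χ) J hz0
      rw [e1] at h3 ⊢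
      rw [e2]
      refine ⟨⟨vE hr, by omega, hl1, ?_⟩, rfl, by simp, fun _ J _ => h3 J⟩
      rw [R.H_E r hr.1 hr.2]
      rw [show x + 1 = k by omega] at hl2
      exact hl2
  | w r x l =>
    obtain ⟨hr, hx, hl1, hl2⟩ : (IsV r ∧ C.core r.facet) ∧ x < k ∧ 1 ≤ l ∧ l ≤ R.H r x := hz
    by_cases h2 : 0 < x
    · have e1 : ac (k := k) (.w r x l) = .e r (x - 1) l := by simp only [ac]; rw [if_pos h2]
      have e2 : ac (k := k) (.e r (x - 1) l) = .w r x l := by
        simp only [ac]; rw [if_pos (by omega)]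
        congr 1
        omega
      have hz' : R.Vd (.e r (x - 1) l) := ⟨hr, by omega, hl1, by
        rw [show x - 1 + 1 = x by omega]; exact hl2⟩
      have h3 := fun J => ac_e (ψ := ψ) (χ := χ) J hz'
      rw [e2] at h3
      rw [e1, e2]
      exact ⟨hz', rfl, by simp, fun _ J _ => (h3 J).symm⟩
    · have hs : r.r2.stE.r2.stE = r := by
        have := FSt.stE_inv r.r2
        rw [FSt.r2_r2] at this
        exact this
      have e1 : ac (k := k) (.w r x l) = .e r.r2.stE.r2 (k - 1) l := by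
        simp only [ac]; rw [if_neg h2]
      have e2 : ac (k := k) (.e r.r2.stE.r2 (k - 1) l) = .w r x l := by
        simp only [ac]; rw [if_neg (by omega), hs]
        congr 1
        omega
      have hV : IsV r.r2.stE.r2 := by
        rw [← IsV_stE, hs]; exact hr.1
      have hC : C.core r.r2.stE.r2.facet := by
        rw [← C.core_E _ hV, hs]; exact hr.2
      have hz' : R.Vd (.e r.r2.stE.r2 (k - 1) l) := ⟨⟨hV, hC⟩, by omega, hl1, by
        rw [show k - 1 + 1 = k by omega, ← R.H_E _ hV hC, hs]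
        rw [show x = 0 by omega] at hl2
        exact hl2⟩
      have h3 := fun J => ac_e (ψ := ψ) (χ := χ) J hz'
      rw [e2] at h3
      rw [e1, e2]
      exact ⟨hz', rfl, by simp, fun _ J _ => (h3 J).symm⟩
  | n r x =>
    obtain ⟨hr, hx, hs⟩ : (IsV r ∧ C.core r.facet) ∧ x < k ∧ shc k R.sp r x = true := hz
    have hsp : R.sp r.facet := (shc_true.1 hs).1
    have hsp' : R.sp r.r2.facet := hsp
    have h1 := (shc_c0 R hsp hx).1 hs
    have hk4 := R.hk4
    have hc : c0 k r.r2 + 1 < k := by unfold c0; split_ifs <;> omega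
    refine ⟨⟨vr2 hr, by omega, ?_⟩, ?_, ?_, fun _ _ h => absurd rfl (h r x)⟩
    · rw [shc_c0 R hsp' (by omega)]
      omega
    · show Fl.n r.r2.r2 (c0 k r.r2.r2 + (c0 k r.r2 + (x - c0 k r) - c0 k r.r2)) = Fl.n r x
      rw [FSt.r2_r2]
      congr 1
      omega
    · intro h
      injection h with h1 h2
      exact r2_ne r h1

end Rims

/-! ## The choice of the parities -/

section Choice

variable {k : ℕ} {C : JCert P k} {D : ℕ} (R : C.Rims D)

/-- the bands -/
def Bd (R : C.Rims D) : Type := {a : P.FSt // IsU a ∧ C.core a.facet ∧ R.sp a.facet}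

/-- the flags -/
def FX (R : C.Rims D) : Type := {z : Fl P // R.Vd z}

instance : Finite (FX R) := by
  have hB : Finite (Fin 4 × P.FSt × Fin (k + 1) × Fin (k + D + 1)) := inferInstance
  let F : FX R → Fin 4 × P.FSt × Fin (k + 1) × Fin (k + D + 1) := fun z =>
    match z.1 with
    | .c s x y => (0, s, Fin.ofNat (k + 1) x, Fin.ofNat (k + D + 1) y)
    | .w r x l => (1, r, Fin.ofNat (k + 1) x, Fin.ofNat (k + D + 1) l)
    | .e r x l => (2, r, Fin.ofNat (k + 1) x, Fin.ofNat (k + D + 1) l)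
    | .n r x => (3, r, Fin.ofNat (k + 1) x, 0)
  refine Finite.of_injective F ?_
  have fi : ∀ (n a b : ℕ), a < n + 1 → b < n + 1 → Fin.ofNat (n + 1) a = Fin.ofNat (n + 1) b →
      a = b := by
    intro n a b ha hb h
    have h1 := congrArg Fin.val h
    simp only [Fin.ofNat] at h1
    rwa [Nat.mod_eq_of_lt ha, Nat.mod_eq_of_lt hb] at h1
  rintro ⟨z, hz⟩ ⟨z', hz'⟩ h
  apply Subtype.ext
  show z = z'
  have bd : ∀ r x, IsV r → C.core r.facet → x ≤ k → R.H r x ≤ D := fun r x h1 h2 h3 =>
    R.H_le r x h1 h2 h3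
  cases z with
  | c s x y =>
    cases z' with
    | c s' x' y' =>
      have hz1 : C.VS s x y := hz
      have hz2 : C.VS s' x' y' := hz'
      have h' : ((0 : Fin 4), s, Fin.ofNat (k + 1) x, Fin.ofNat (k + D + 1) y) =
        (0, s', Fin.ofNat (k + 1) x', Fin.ofNat (k + D + 1) y') := h
      simp only [Prod.mk.injEq, true_and] at h'
      have e1 := fi k _ _ (by have := hz1.1; omega) (by have := hz2.1; omega) h'.2.1
      have e2 := fi (k + D) _ _ (by have := hz1.2.1; omega) (by have := hz2.2.1; omega) h'.2.2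
      rw [h'.1, e1, e2]
    | w r' x' l' =>
      have h' : (0 : Fin 4) = 1 := congrArg Prod.fst h
      exact absurd h' (by decide)
    | e r' x' l' =>
      have h' : (0 : Fin 4) = 2 := congrArg Prod.fst h
      exact absurd h' (by decide)
    | n r' x' =>
      have h' : (0 : Fin 4) = 3 := congrArg Prod.fst h
      exact absurd h' (by decide)
  | w r x l =>
    cases z' with
    | c s' x' y' =>
      have h' : (1 : Fin 4) = 0 := congrArg Prod.fst h
      exact absurd h' (by decide)
    | w r' x' l' =>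
      have hz1 : (IsV r ∧ C.core r.facet) ∧ x < k ∧ 1 ≤ l ∧ l ≤ R.H r x := hz
      have hz2 : (IsV r' ∧ C.core r'.facet) ∧ x' < k ∧ 1 ≤ l' ∧ l' ≤ R.H r' x' := hz'
      have h' : ((1 : Fin 4), r, Fin.ofNat (k + 1) x, Fin.ofNat (k + D + 1) l) =
        (1, r', Fin.ofNat (k + 1) x', Fin.ofNat (k + D + 1) l') := h
      simp only [Prod.mk.injEq, true_and] at h'
      have b1 := bd r x hz1.1.1 hz1.1.2 hz1.2.1.le
      have b2 := bd r' x' hz2.1.1 hz2.1.2 hz2.2.1.le
      have e1 := fi k _ _ (by omega) (by omega) h'.2.1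
      have e2 := fi (k + D) _ _ (by omega) (by omega) h'.2.2
      rw [h'.1, e1, e2]
    | e r' x' l' =>
      have h' : (1 : Fin 4) = 2 := congrArg Prod.fst h
      exact absurd h' (by decide)
    | n r' x' =>
      have h' : (1 : Fin 4) = 3 := congrArg Prod.fst h
      exact absurd h' (by decide)
  | e r x l =>
    cases z' with
    | c s' x' y' =>
      have h' : (2 : Fin 4) = 0 := congrArg Prod.fst h
      exact absurd h' (by decide)
    | w r' x' l' =>
      have h' : (2 : Fin 4) = 1 := congrArg Prod.fst h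
      exact absurd h' (by decide)
    | e r' x' l' =>
      have hz1 : (IsV r ∧ C.core r.facet) ∧ x < k ∧ 1 ≤ l ∧ l ≤ R.H r (x + 1) := hz
      have hz2 : (IsV r' ∧ C.core r'.facet) ∧ x' < k ∧ 1 ≤ l' ∧ l' ≤ R.H r' (x' + 1) := hz'
      have h' : ((2 : Fin 4), r, Fin.ofNat (k + 1) x, Fin.ofNat (k + D + 1) l) =
        (2, r', Fin.ofNat (k + 1) x', Fin.ofNat (k + D + 1) l') := h
      simp only [Prod.mk.injEq, true_and] at h'
      have b1 := bd r (x + 1) hz1.1.1 hz1.1.2 hz1.2.1
      have b2 := bd r' (x' + 1) hz2.1.1 hz2.1.2 hz2.2.1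
      have e1 := fi k _ _ (by omega) (by omega) h'.2.1
      have e2 := fi (k + D) _ _ (by omega) (by omega) h'.2.2
      rw [h'.1, e1, e2]
    | n r' x' =>
      have h' : (2 : Fin 4) = 3 := congrArg Prod.fst h
      exact absurd h' (by decide)
  | n r x =>
    cases z' with
    | c s' x' y' =>
      have h' : (3 : Fin 4) = 0 := congrArg Prod.fst h
      exact absurd h' (by decide)
    | w r' x' l' =>
      have h' : (3 : Fin 4) = 1 := congrArg Prod.fst h
      exact absurd h' (by decide)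
    | e r' x' l' =>
      have h' : (3 : Fin 4) = 2 := congrArg Prod.fst h
      exact absurd h' (by decide)
    | n r' x' =>
      have hz1 : (IsV r ∧ C.core r.facet) ∧ x < k ∧ shc k R.sp r x = true := hz
      have hz2 : (IsV r' ∧ C.core r'.facet) ∧ x' < k ∧ shc k R.sp r' x' = true := hz'
      have h' : ((3 : Fin 4), r, Fin.ofNat (k + 1) x, (0 : Fin (k + D + 1))) =
        (3, r', Fin.ofNat (k + 1) x', 0) := h
      simp only [Prod.mk.injEq, true_and, and_true] at h'
      have e1 := fi k _ _ (by omega) (by omega) h'.2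
      rw [h'.1, e1]

instance : Finite (Bd R) := inferInstanceAs (Finite {_a : P.FSt // _})

lemma c0_add_lt (R : C.Rims D) (a : P.FSt) (i : Bool) : c0 k a + i.toNat < k := by
  have hk4 := R.hk4
  unfold c0
  cases i <;> simp only [Bool.toNat_false, Bool.toNat_true] <;> split_ifs <;> omega

lemma Vd_port {a : P.FSt} (h : IsV a ∧ C.core a.facet) (hs : R.sp a.facet) (i : Bool) :
    R.Vd (.n a (c0 k a + i.toNat)) := by
  refine ⟨h, c0_add_lt R a i, ?_⟩
  rw [shc_c0 R hs (c0_add_lt R a i)]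
  cases i
  · exact Or.inl rfl
  · exact Or.inr rfl

/-- the ports -/
def prt4 (z : Bd R × Bool × Bool) : FX R :=
  ⟨.n (if z.2.1 then z.1.1.r2 else z.1.1) (c0 k (if z.2.1 then z.1.1.r2 else z.1.1) +
    z.2.2.toNat), by
    have h : IsV z.1.1 ∧ C.core z.1.1.facet := ⟨z.1.2.1.isV, z.1.2.2.1⟩
    cases z.2.1
    · exact Vd_port R h z.1.2.2.2 _
    · exact Vd_port R (Rims.vr2 h) z.1.2.2.2 _⟩

/-- the band of a state -/
def OfBand (s : P.FSt) (a : Bd R) : Prop :=
  pE.SameCycle s a.1 ∨ pE.SameCycle s a.1.r2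

lemma ofBand_E (s : P.FSt) (a : Bd R) : OfBand R s.stE a ↔ OfBand R s a := by
  unfold OfBand
  rw [← pE_apply, Equiv.Perm.sameCycle_apply_left, Equiv.Perm.sameCycle_apply_left]

lemma ofBand_r2 (s : P.FSt) (a : Bd R) : OfBand R s.r2 a ↔ OfBand R s a := by
  have key : ∀ s, OfBand R s a → OfBand R s.r2 a := by
    intro s h
    rcases h with h | h
    · exact Or.inr (sameCycle_r2 h)
    · left
      have := sameCycle_r2 h
      rwa [FSt.r2_r2] at this
  refine ⟨fun h => ?_, key s⟩
  have := key _ h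
  rwa [FSt.r2_r2] at this

lemma IsU_same {s a : P.FSt} (h : pE.SameCycle s a) : IsU s ↔ IsU a := by
  obtain ⟨n, rfl⟩ := h.exists_nat_pow_eq
  clear h
  induction n with
  | zero => exact Iff.rfl
  | succ n ih =>
    rw [ih, pow_succ', Equiv.Perm.mul_apply]
    exact (IsU_stE _).symm

lemma ofBand_unique {a b : Bd R} (h : OfBand R a.1 b) : a = b := by
  have hV : IsV a.1 := a.2.1.isV
  obtain ⟨c, -, hc⟩ := R.sp_ex a.1 hV a.2.2.1
  rcases h with h | h
  · have e1 := hc b.1 ⟨h, b.2.2.2⟩
    have e2 := hc a.1 ⟨Equiv.Perm.SameCycle.refl _ _, a.2.2.2⟩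
    exact Subtype.ext (e2.trans e1.symm)
  · exfalso
    have h1 := (IsU_same h).1 a.2.1
    exact (IsU_r2 b.2.1.isV).1 h1 b.2.1

/-- **T3**: the parities can be chosen in such a way that the two ports of every band have the
same value. -/
theorem exists_t (C : JCert P k) {D : ℕ} (R : C.Rims D) :
    ∃ (t : P.FSt → Bool) (h1 : ∀ s, t s.stE = t s) (h2 : ∀ s, t s.r2 = t s), ∀ ψ χ, C.Inv ψ χ →
      RInv (R.withT t h1 h2) ψ χ → ∀ a, IsV a → C.core a.facet → R.sp a.facet →
      ((R.withT t h1 h2).port χ a 0 ↔ (R.withT t h1 h2).port χ a 1) := by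
  classical
  let m : FX R → FX R := fun z => ⟨R.mt z.1, (Rims.mt_spec (ψ := fun _ _ _ => True)
    (χ := fun _ _ _ => True) z.2).1⟩
  let p : FX R → FX R := fun z => ⟨Rims.ac (k := k) z.1, (Rims.ac_spec (ψ := fun _ _ _ => True)
    (χ := fun _ _ _ => True) z.2).1⟩
  have hm : ∀ z, m (m z) = z := fun z => Subtype.ext (Rims.mt_spec (ψ := fun _ _ _ => True)
    (χ := fun _ _ _ => True) z.2).2.1
  have hm0 : ∀ z, m z ≠ z := fun z h => (Rims.mt_spec (ψ := fun _ _ _ => True)
    (χ := fun _ _ _ => True) z.2).2.2.1 (congrArg Subtype.val h)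
  have hp : ∀ z, p (p z) = z := fun z => Subtype.ext (Rims.ac_spec (ψ := fun _ _ _ => True)
    (χ := fun _ _ _ => True) z.2).2.1
  have hp0 : ∀ z, p z ≠ z := fun z h => (Rims.ac_spec (ψ := fun _ _ _ => True)
    (χ := fun _ _ _ => True) z.2).2.2.1 (congrArg Subtype.val h)
  have hq : Function.Injective (prt4 R) := by
    rintro ⟨a, s, i⟩ ⟨a', s', i'⟩ h
    have h1 : Fl.n (if s then a.1.r2 else a.1) (c0 k (if s then a.1.r2 else a.1) + i.toNat) =
      Fl.n (if s' then a'.1.r2 else a'.1) (c0 k (if s' then a'.1.r2 else a'.1) + i'.toNat) :=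
      congrArg Subtype.val h
    injection h1 with h2 h3
    rw [h2] at h3
    have h4 : i.toNat = i'.toNat := by omega
    have h5 : i = i' := by cases i <;> cases i' <;> simp_all
    have n1 : ¬ IsU a.1.r2 := fun h => (IsU_r2 a.2.1.isV).1 h a.2.1
    have n2 : ¬ IsU a'.1.r2 := fun h => (IsU_r2 a'.2.1.isV).1 h a'.2.1
    cases s <;> cases s'
    · have : a = a' := Subtype.ext h2
      rw [this, h5]
    · exfalso
      have h6 : a.1 = a'.1.r2 := h2
      apply n2
      rw [← h6]; exact a.2.1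
    · exfalso
      have h6 : a.1.r2 = a'.1 := h2
      apply n1
      rw [h6]; exact a'.2.1
    · have h6 : a.1.r2 = a'.1.r2 := h2
      have h7 := congrArg FSt.r2 h6
      rw [FSt.r2_r2, FSt.r2_r2] at h7
      have : a = a' := Subtype.ext h7
      rw [this, h5]
  have hpq : ∀ b s i, p (prt4 R (b, s, i)) = prt4 R (b, !s, i) := by
    intro b s i
    apply Subtype.ext
    show Rims.ac (k := k) (.n (if s then b.1.r2 else b.1) (c0 k (if s then b.1.r2 else b.1) +
      i.toNat)) = .n (if !s then b.1.r2 else b.1) (c0 k (if !s then b.1.r2 else b.1) + i.toNat)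
    simp only [Rims.ac]
    cases s
    · show Fl.n b.1.r2 (c0 k b.1.r2 + (c0 k b.1 + i.toNat - c0 k b.1)) =
        Fl.n b.1.r2 (c0 k b.1.r2 + i.toNat)
      congr 1
      omega
    · show Fl.n b.1.r2.r2 (c0 k b.1.r2.r2 + (c0 k b.1.r2 + i.toNat - c0 k b.1.r2)) =
        Fl.n b.1 (c0 k b.1 + i.toNat)
      rw [FSt.r2_r2]
      congr 1
      omega
  obtain ⟨τ, hτ⟩ := Pool.Agent.Helper48.UNF.exists_switch hm hm0 hp hp0 hq hpq
  let t : P.FSt → Bool := fun s => if h : ∃ a, OfBand R s a then τ h.choose else false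
  have key : ∀ s s' : P.FSt, (∀ a, OfBand R s a ↔ OfBand R s' a) → t s = t s' := by
    intro s s' h
    have e : OfBand R s = OfBand R s' := funext fun a => propext (h a)
    show (if h : ∃ a, OfBand R s a then τ h.choose else false) =
      (if h : ∃ a, OfBand R s' a then τ h.choose else false)
    rw [e]
  have h1 : ∀ s, t s.stE = t s := fun s => key _ _ (ofBand_E R s)
  have h2 : ∀ s, t s.r2 = t s := fun s => key _ _ (ofBand_r2 R s)
  have ht : ∀ a : Bd R, t a.1 = τ a := by
    intro a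
    have hex : ∃ b, OfBand R a.1 b := ⟨a, Or.inl (Equiv.Perm.SameCycle.refl _ _)⟩
    show (if h : ∃ b, OfBand R a.1 b then τ h.choose else false) = τ a
    rw [dif_pos hex]
    have := ofBand_unique R hex.choose_spec
    rw [← this]
  refine ⟨t, h1, h2, fun ψ χ I J => ?_⟩
  set R' := R.withT t h1 h2 with hR'
  have hport : ∀ (a : P.FSt) (i : Bool), R'.vlF ψ χ (.n a (c0 k a + i.toNat)) ↔
      R'.port χ a i.toNat := by
    intro a i
    rw [port_eq]
    exact Iff.rfl
  have hsw := hτ (fun z => R'.vlF ψ χ z.1) ?_ ?_ ?_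
  · -- conclusion
    intro a hV hCo hsp
    by_cases hu : IsU a
    · have h3 := hsw ⟨a, hu, hCo, hsp⟩ false
      have h4 : R'.vlF ψ χ (.n a (c0 k a + false.toNat)) ↔
        R'.vlF ψ χ (.n a (c0 k a + true.toNat)) := h3
      rw [hport, hport] at h4
      exact h4
    · have hu' : IsU a.r2 := (IsU_r2 hV).2 hu
      have h3 := hsw ⟨a.r2, hu', hCo, hsp⟩ true
      have h4 : R'.vlF ψ χ (.n a.r2.r2 (c0 k a.r2.r2 + false.toNat)) ↔
        R'.vlF ψ χ (.n a.r2.r2 (c0 k a.r2.r2 + true.toNat)) := h3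
      rw [FSt.r2_r2, hport, hport] at h4
      exact h4
  · intro z
    exact (Rims.mt_spec (R := R') (ψ := ψ) (χ := χ) z.2).2.2.2 I J
  · intro z hz
    refine (Rims.ac_spec (R := R') (ψ := ψ) (χ := χ) z.2).2.2.2 I J ?_
    intro r x hzn
    have hv := z.2
    rw [hzn] at hv
    obtain ⟨hr, hx, hs⟩ : (IsV r ∧ C.core r.facet) ∧ x < k ∧ shc k R.sp r x = true := hv
    have hsp : R.sp r.facet := (shc_true.1 hs).1
    have hxc := (shc_c0 R hsp hx).1 hs
    by_cases hu : IsU r
    · apply hz ⟨r, hu, hr.2, hsp⟩ false (decide (x = c0 k r + 1))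
      apply Subtype.ext
      show Fl.n r (c0 k r + (decide (x = c0 k r + 1)).toNat) = z.1
      rw [hzn]
      congr 1
      rcases hxc with h | h
      · rw [h]; simp
      · rw [h]; simp
    · have hu' : IsU r.r2 := (IsU_r2 hr.1).2 hu
      apply hz ⟨r.r2, hu', hr.2, hsp⟩ true (decide (x = c0 k r + 1))
      apply Subtype.ext
      show Fl.n r.r2.r2 (c0 k r.r2.r2 + (decide (x = c0 k r + 1)).toNat) = z.1
      rw [hzn, FSt.r2_r2]
      congr 1
      rcases hxc with h | h
      · rw [h]; simp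
      · rw [h]; simp
  · intro b i
    have hb : IsV b.1 ∧ C.core b.1.facet := ⟨b.2.1.isV, b.2.2.1⟩
    have h3 := through J hb (show R'.sp b.1.facet from b.2.2.2) (j := i.toNat)
      (by cases i <;> decide)
    have h4 : R'.t b.1 = τ b := ht b
    rw [h4] at h3
    show R'.vlF ψ χ (.n b.1 (c0 k b.1 + i.toNat)) ↔
      R'.vlF ψ χ (.n b.1.r2 (c0 k b.1.r2 + (xor i (τ b)).toNat))
    rw [hport, hport, h3]
    cases i <;> cases τ b <;> exact Iff.rfl

end Choice

end JCert

end Pool.Agent.MP42G
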