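import Pool.Agent.MP42.G.Defs

/-!
# GRT: the windows of the rim states
-/

set_option autoImplicit false
set_option linter.unusedSectionVars false

namespace Pool.Agent.MP42G

open Pool.Agent.Helper55.UNF Pool.Agent.Helper55.UNF.GridSolid

variable {P : GridSolid}

lemma IsU.isV {r : P.FSt} (h : IsU r) : IsV r := by
  unfold IsU at h
  unfold IsV
  rw [h]

lemma n_r2 (r : P.FSt) : r.r2.1.n = opp r.1.n := by
  show cross r.1.d (opp r.1.e) = opp (cross r.1.d r.1.e)
  exact cross_opp_right _ _ r.2.2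

lemma IsU_r2 {r : P.FSt} (h : IsV r) : IsU r.r2 ↔ ¬ IsU r := by
  unfold IsU
  rw [n_r2]
  unfold IsV at h
  generalize r.1.n = d at *
  revert h
  revert d
  decide

namespace JCert

variable {k : ℕ} (C : JCert P k)

lemma wd_free {r : P.FSt} (hc : C.core r.facet) {x : ℕ} (hx : x < k) (h : x < 2 ∨ k ≤ x + 2) :
    C.wd r x = Ln.z := by
  unfold wd
  split_ifs
  · exact (C.free _ hc x hx h).1
  · exact (C.free _ hc (k - 1 - x) (by omega) (by omega)).2

lemma vl_z {l : Ln} : vl l = 0 ↔ l = Ln.z := by cases l <;> simp [vl]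
lemma vl_n {l : Ln} : vl l = 1 ↔ l = Ln.n := by cases l <;> simp [vl]
lemma vl_s {l : Ln} : vl l = -1 ↔ l = Ln.s := by cases l <;> simp [vl]
lemma vl_cases (l : Ln) : vl l = 0 ∨ vl l = 1 ∨ vl l = -1 := by cases l <;> simp [vl]

lemma shc_true {sp : P.Facet → Prop} {r : P.FSt} {x : ℕ} :
    shc k sp r x = true ↔ sp r.facet ∧ (if IsU r then k ≤ x + 2 else x < 2) := by
  classical
  unfold shc
  rw [decide_eq_true_iff]

lemma shc_r2 {sp : P.Facet → Prop} {r : P.FSt} (h : IsV r) {x : ℕ} (hx : x < k) :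
    shc k sp r.r2 (k - 1 - x) = shc k sp r x := by
  rw [Bool.eq_iff_iff, shc_true, shc_true, FSt.facet_r2]
  have h1 := IsU_r2 h
  by_cases hu : IsU r
  · rw [if_pos hu, if_neg (by rw [h1]; exact not_not.2 hu)]
    apply and_congr_right
    intro _
    omega
  · rw [if_neg hu, if_pos (h1.2 hu)]
    apply and_congr_right
    intro _
    omega

lemma shc_free {sp : P.Facet → Prop} {r : P.FSt} {x : ℕ} (h : shc k sp r x = true) :
    x < 2 ∨ k ≤ x + 2 := by
  rw [shc_true] at h
  obtain ⟨-, h⟩ := h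
  split_ifs at h
  · exact Or.inr h
  · exact Or.inl h

namespace Rims

variable {C} {D : ℕ} (R : C.Rims D)

lemma tc_pos (r : P.FSt) : 1 ≤ R.tc r ∧ R.tc r ≤ 2 := by unfold tc; split_ifs <;> omega

lemma tc_r2 (r : P.FSt) : R.tc r.r2 = R.tc r := by unfold tc; rw [R.t_r]

lemma tc_E (r : P.FSt) : R.tc r.stE = R.tc r := by unfold tc; rw [R.t_E]

lemma base_E (r : P.FSt) : R.base r.stE = R.base r := by
  unfold base
  rw [R.tc_E]
  simp only [IsU_stE]

lemma base_add {r : P.FSt} (h : IsV r) : R.base r + R.tc r + R.base r.r2 = k := by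
  have h1 := R.hk
  have h2 := R.tc_pos r
  have h3 := IsU_r2 h
  unfold base
  rw [R.tc_r2]
  by_cases hu : IsU r
  · rw [if_pos hu, if_neg (by rw [h3]; exact not_not.2 hu)]
    omega
  · rw [if_neg hu, if_pos (h3.2 hu)]
    omega

lemma D_le_base (r : P.FSt) : D ≤ R.base r := by
  have h1 := R.hk
  have h2 := R.tc_pos r
  unfold base
  split_ifs <;> omega

lemma H_le_base {r : P.FSt} (h : IsV r ∧ C.core r.facet) {x : ℕ} (hx : x ≤ k) :
    R.H r x ≤ R.base r := (R.H_le r x h.1 h.2 hx).trans (R.D_le_base r)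

lemma H_sh {r : P.FSt} (h : IsV r ∧ C.core r.facet) {x : ℕ} (hx : x < k)
    (hs : shc k R.sp r x = true) : R.H r x = R.H r (x + 1) + 1 := by
  have h1 := R.H_x r x h.1 h.2 hx
  rw [if_pos hs, C.wd_free h.2 hx (shc_free hs)] at h1
  simp only [vl] at h1
  omega

lemma H_not {r : P.FSt} (h : IsV r ∧ C.core r.facet) {x : ℕ} (hx : x < k)
    (hs : shc k R.sp r x = false) : (R.H r (x + 1) : ℤ) = R.H r x + vl (C.wd r x) := by
  have h1 := R.H_x r x h.1 h.2 hx
  rw [if_neg (by rw [hs]; decide)] at h1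
  omega

lemma vr2 {r : P.FSt} (h : IsV r ∧ C.core r.facet) : IsV r.r2 ∧ C.core r.r2.facet :=
  ⟨(IsV_r2 r).2 h.1, h.2⟩

lemma vE {r : P.FSt} (h : IsV r ∧ C.core r.facet) : IsV r.stE ∧ C.core r.stE.facet :=
  ⟨(IsV_stE r).2 h.1, (C.core_E r h.1).2 h.2⟩

/-- the window of a rim state, in its own frame -/
noncomputable def win (r : P.FSt) (h : IsV r ∧ C.core r.facet) : Win k where
  lo := fun x => R.base r - R.H r x
  hi := fun x => k - 1 - (R.base r.r2 - R.H r.r2 (k - x))
  sh := fun x => shc k R.sp r x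
  lt := fun x _ => by
    have := R.hk4
    omega
  n0 := fun x hx hs => by
    have h1 := R.H_not h hx hs
    have h2 := R.H_le_base h (x := x) hx.le
    have h3 := R.H_le_base h (x := x + 1) hx
    rcases vl_cases (C.wd r x) with h4 | h4 | h4 <;> rw [h4] at h1 <;> omega
  n1 := fun x hx hs => by
    have h' := vr2 h
    have h1 := R.H_not h' (x := k - 1 - x) (by omega) (by rw [shc_r2 h.1 hx]; exact hs)
    rw [show k - 1 - x + 1 = k - x by omega] at h1
    rw [show k - (x + 1) = k - 1 - x by omega]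
    have h2 := R.H_le_base h' (x := k - x) (by omega)
    have h3 := R.H_le_base h' (x := k - 1 - x) (by omega)
    have h5 := R.base_add h.1
    have h6 := R.tc_pos r
    rcases vl_cases (C.wd r.r2 (k - 1 - x)) with h4 | h4 | h4 <;> rw [h4] at h1 <;> omega
  n2 := fun x hx hs => by
    have h' := vr2 h
    have h2 := R.H_le_base h' (x := k - x) (by omega)
    have h3 := R.H_le_base h' (x := k - (x + 1)) (by omega)
    have h5 := R.base_add h.1
    have h6 := R.tc_pos r
    omega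
  s0 := fun x hx hs => by
    have h' := vr2 h
    have h1 := R.H_sh h hx hs
    have h2 := R.H_sh h' (x := k - 1 - x) (by omega) (by rw [shc_r2 h.1 hx]; exact hs)
    rw [show k - 1 - x + 1 = k - x by omega] at h2
    rw [show k - (x + 1) = k - 1 - x by omega]
    have h3 := R.H_le_base h (x := x) hx.le
    have h4 := R.H_le_base h' (x := k - 1 - x) (by omega)
    have h5 := R.base_add h.1
    have h6 := R.tc_pos r
    omega

lemma win_lo (r : P.FSt) (h : IsV r ∧ C.core r.facet) (x : ℕ) :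
    (R.win r h).lo x = R.base r - R.H r x := rfl

lemma win_hi (r : P.FSt) (h : IsV r ∧ C.core r.facet) (x : ℕ) :
    (R.win r h).hi x = k - 1 - (R.base r.r2 - R.H r.r2 (k - x)) := rfl

lemma win_sh (r : P.FSt) (h : IsV r ∧ C.core r.facet) (x : ℕ) :
    (R.win r h).sh x = shc k R.sp r x := rfl

lemma win_rot_lo (r : P.FSt) (h : IsV r ∧ C.core r.facet) {x : ℕ} (hx : x ≤ k) :
    (R.win r.r2 (vr2 h)).lo x = (R.win r h).rot.lo x := by
  rw [Win.rot_lo, win_hi, win_lo]
  have h5 := R.base_add h.1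
  have h6 := R.tc_pos r
  rw [show k - (k - x) = x by omega]
  omega

lemma win_rot_hi (r : P.FSt) (h : IsV r ∧ C.core r.facet) {x : ℕ} (hx : x ≤ k) :
    (R.win r.r2 (vr2 h)).hi x = (R.win r h).rot.hi x := by
  rw [Win.rot_hi, win_hi, win_lo, FSt.r2_r2]

lemma win_rot_sh (r : P.FSt) (h : IsV r ∧ C.core r.facet) {x : ℕ} (hx : x < k) :
    (R.win r.r2 (vr2 h)).sh x = (R.win r h).rot.sh x := by
  rw [Win.rot_sh, win_sh, win_sh, ← shc_r2 h.1 (x := k - 1 - x) (by omega)]
  congr 1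
  omega

lemma win_rot_pr (r : P.FSt) (h : IsV r ∧ C.core r.facet) {x y : ℕ} (hx : x ≤ k) (hy : y < k) :
    (R.win r.r2 (vr2 h)).pr x y = (R.win r h).pr (k - x) (k - 1 - y) := by
  rw [← Win.rot_pr _ hx hy]
  unfold Win.pr
  rw [R.win_rot_lo r h hx, R.win_rot_hi r h hx]

lemma win_rot_la (r : P.FSt) (h : IsV r ∧ C.core r.facet) {x y : ℕ} (hx : x < k) (hy : y ≤ k) :
    (R.win r.r2 (vr2 h)).la x y = (R.win r h).la (k - 1 - x) (k - y) := by
  rw [← Win.rot_la _ hx hy]
  unfold Win.la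
  rw [R.win_rot_lo r h hx.le, R.win_rot_hi r h hx.le, R.win_rot_lo r h (x := x + 1) hx,
    R.win_rot_hi r h (x := x + 1) hx, R.win_rot_sh r h hx]

lemma win_bot (r : P.FSt) (h : IsV r ∧ C.core r.facet) {x : ℕ} (hx : x < k) :
    (R.win r h).bot x = C.wd r x := by
  unfold Win.bot
  rw [win_sh, win_lo, win_lo]
  cases hs : shc k R.sp r x
  · have h1 := R.H_not h hx hs
    have h2 := R.H_le_base h (x := x) hx.le
    have h3 := R.H_le_base h (x := x + 1) hx
    rw [if_neg (by decide)]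
    unfold lnd
    rcases vl_cases (C.wd r x) with h4 | h4 | h4
    · rw [vl_z.1 h4]
      rw [h4] at h1
      rw [if_neg (by omega), if_neg (by omega)]
    · rw [vl_n.1 h4]
      rw [h4] at h1
      rw [if_pos (by omega)]
    · rw [vl_s.1 h4]
      rw [h4] at h1
      rw [if_neg (by omega), if_pos (by omega)]
  · rw [if_pos rfl, C.wd_free h.2 hx (shc_free hs)]

lemma win_top (r : P.FSt) (h : IsV r ∧ C.core r.facet) {x : ℕ} (hx : x < k) :
    (R.win r h).top x = C.wd r.r2 (k - 1 - x) := by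
  have h1 := R.win_bot r.r2 (vr2 h) (x := k - 1 - x) (by omega)
  have h2 := (R.win r.r2 (vr2 h)).la_bot (k - 1 - x)
  have h3 := (R.win r h).la_top hx
  rw [R.win_rot_la r h (by omega) (Nat.zero_le k)] at h2
  rw [show k - 1 - (k - 1 - x) = x by omega, Nat.sub_zero] at h2
  rw [← h1, ← h2, h3]

lemma win_E_lo (r : P.FSt) (h : IsV r ∧ C.core r.facet) :
    (R.win r.stE (vE h)).lo 0 = (R.win r h).lo k := by
  rw [win_lo, win_lo, R.base_E, R.H_E r h.1 h.2]

lemma win_E_hi (r : P.FSt) (h : IsV r ∧ C.core r.facet) :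
    (R.win r.stE (vE h)).hi 0 = (R.win r h).hi k := by
  rw [win_hi, win_hi]
  have h1 := R.H_E r.stE.r2 (vr2 (vE h)).1 (vr2 (vE h)).2
  rw [FSt.stE_inv] at h1
  have h2 : R.base r.stE.r2 = R.base r.r2 := by
    rw [← R.base_E r.stE.r2, FSt.stE_inv]
  rw [h2, Nat.sub_zero, Nat.sub_self, h1]

lemma win_E_pr (r : P.FSt) (h : IsV r ∧ C.core r.facet) (y : ℕ) :
    (R.win r.stE (vE h)).pr 0 y = (R.win r h).pr k y := by
  unfold Win.pr
  rw [R.win_E_lo r h, R.win_E_hi r h]

lemma core_row (r : P.FSt) (h : IsV r ∧ C.core r.facet) {y : ℕ} (h1 : R.base r ≤ y)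
    (h2 : y < R.base r + R.tc r) {x : ℕ} (_hx : x ≤ k) : (R.win r h).pr x y = true := by
  rw [Win.pr_true, win_lo, win_hi]
  have h5 := R.base_add h.1
  omega

end Rims

/-! ## Predicates in the frame of a state -/

/-- value on vertical unit edges in the frame of `r` -/
def vS (ψ : P.Facet → ℕ → ℕ → Prop) (r : P.FSt) : ℕ → ℕ → Prop :=
  if C.can r.facet = r then ψ r.facet else rV k (ψ r.facet)

/-- value on horizontal unit edges in the frame of `r` -/
def hS (χ : P.Facet → ℕ → ℕ → Prop) (r : P.FSt) : ℕ → ℕ → Prop :=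
  if C.can r.facet = r then χ r.facet else rH k (χ r.facet)

lemma can_r2_ne {r : P.FSt} (h : C.can r.facet = r) : C.can r.r2.facet ≠ r.r2 := by
  rw [FSt.facet_r2, h]
  intro h1
  have h2 : r.1.e = opp r.1.e := congrArg (fun s : P.FSt => s.1.e) h1
  have h3 : r.1.e.2 = !r.1.e.2 := congrArg Prod.snd h2
  revert h3
  cases r.1.e.2 <;> simp

/-- a state with vertical north over a core facet is the canonical one or its half turn -/
lemma can_or {r : P.FSt} (h : IsV r ∧ C.core r.facet) :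
    C.can r.facet = r ∨ C.can r.r2.facet = r.r2 := by
  have h1 := C.can_core _ h.2
  have h2 := C.can_facet r.facet
  generalize hg : C.can r.facet = g at *
  rw [FSt.facet_r2, hg]
  have hd : g.1.d = r.1.d := congrArg (fun f : P.Facet => f.1.2) h2
  have hr := h.1
  unfold IsV at hr h1
  have key : g.1.e = r.1.e ∨ g.1.e = opp r.1.e := by
    have e1 : (cross g.1.d g.1.e).1 = 2 := h1
    have e2 : (cross r.1.d r.1.e).1 = 2 := hr
    have g2 := g.2.2
    have r2 := r.2.2
    rw [hd] at e1 g2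
    generalize g.1.e = a at *
    generalize r.1.e = b at *
    generalize r.1.d = d at *
    clear hr h1 hd h2 hg h
    revert a b d
    decide
  have hc : g.1.c = r.1.c := congrArg (fun f : P.Facet => f.1.1) h2
  rcases key with h3 | h3
  · left
    apply FSt.ext'
    apply St.ext hc hd h3
  · right
    apply FSt.ext'
    exact St.ext hc hd h3

lemma vS_r2 {ψ : P.Facet → ℕ → ℕ → Prop} {r : P.FSt} (h : IsV r ∧ C.core r.facet) {x y : ℕ}
    (hx : x ≤ k) (hy : y < k) : C.vS ψ r.r2 x y ↔ C.vS ψ r (k - x) (k - 1 - y) := by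
  unfold vS
  rcases C.can_or h with h1 | h1
  · rw [if_pos h1, if_neg (C.can_r2_ne h1)]
    exact Iff.rfl
  · have h2 : C.can r.facet ≠ r := by
      have := C.can_r2_ne h1
      rwa [FSt.r2_r2] at this
    rw [if_pos h1, if_neg h2, rV_apply (ψ r.facet) (x' := x) (y' := y) (by omega) (by omega)]
    exact Iff.rfl

lemma hS_r2 {χ : P.Facet → ℕ → ℕ → Prop} {r : P.FSt} (h : IsV r ∧ C.core r.facet) {x y : ℕ}
    (hx : x < k) (hy : y ≤ k) : C.hS χ r.r2 x y ↔ C.hS χ r (k - 1 - x) (k - y) := by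
  unfold hS
  rcases C.can_or h with h1 | h1
  · rw [if_pos h1, if_neg (C.can_r2_ne h1)]
    exact Iff.rfl
  · have h2 : C.can r.facet ≠ r := by
      have := C.can_r2_ne h1
      rwa [FSt.r2_r2] at this
    rw [if_pos h1, if_neg h2, rH_apply (χ r.facet) (x' := x) (y' := y) (by omega) (by omega)]
    exact Iff.rfl

lemma fv_eq (χ : P.Facet → ℕ → ℕ → Prop) (r : P.FSt) (x : ℕ) :
    C.fv χ r x ↔ C.hS χ r x 0 := by
  unfold fv hS
  split_ifs
  · exact Iff.rfl
  · show χ r.facet (k - 1 - x) k ↔ χ r.facet (k - 1 - x) (k - 0)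
    rw [Nat.sub_zero]

variable {C}

/-- invariance in the core walls -/
structure RInv {D : ℕ} (R : C.Rims D) (ψ χ : P.Facet → ℕ → ℕ → Prop) : Prop where
  rel : ∀ r (h : IsV r ∧ C.core r.facet), CellRel k (R.win r h).pr (R.win r h).la (C.vS ψ r)
    (C.hS χ r)
  gl : ∀ r (h : IsV r ∧ C.core r.facet), ∀ y < k, (R.win r h).pr k y = true →
    (C.vS ψ r k y ↔ C.vS ψ r.stE 0 y)

/-- the `j`-th strand (`j = 0, 1`) that leaves level 1 at the special facet -/
def Rims.port {D : ℕ} (R : C.Rims D) (χ : P.Facet → ℕ → ℕ → Prop) (a : P.FSt) (j : ℕ) : Prop :=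
  C.hS χ a (if IsU a then k - 2 + j else j) (R.base a)

end JCert

end Pool.Agent.MP42G
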