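import Pool.Agent.MP42.G.Height
import Pool.Agent.Helper55.UNF.LTab

/-!
# GRT: the table of a junction certificate (owner helper55)
-/

set_option autoImplicit false
set_option linter.unusedSectionVars false

namespace Pool.Agent.MP42G

open Pool.Agent.Helper55.UNF Pool.Agent.Helper55.UNF.GridSolid

variable {P : GridSolid}

namespace JCert

variable {k : ℕ} (C : JCert P k)

lemma hcan {f : P.Facet} (h : C.core f) : IsV (C.can f) ∧ C.core (C.can f).facet :=
  ⟨C.can_core f h, by rw [C.can_facet]; exact h⟩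

lemma can_can (f : P.Facet) : C.can (C.can f).facet = C.can f := by rw [C.can_facet]

lemma can_ne_r2 (f g : P.Facet) : C.can f ≠ (C.can g).r2 := by
  intro h
  have h1 : f = g := by
    have := congrArg FSt.facet h
    rwa [FSt.facet_r2, C.can_facet, C.can_facet] at this
  subst h1
  have h2 := C.can_r2_ne (r := C.can f) (C.can_can f)
  rw [FSt.facet_r2, C.can_facet] at h2
  exact h2 h

/-- the core facets are glued to the core facets over the sides that are parallel to `z` -/
lemma core_step {s : P.FSt} (h1 : s = C.can s.facet ∨ s = (C.can s.facet).r2)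
    (h2 : s.stE = C.can s.stE.facet ∨ s.stE = (C.can s.stE.facet).r2) :
    C.core s.stE.facet ↔ C.core s.facet := by
  have v1 : C.core s.facet → IsV s := by
    intro h
    rcases h1 with h1 | h1
    · rw [h1]; exact C.can_core _ h
    · rw [h1, IsV_r2]; exact C.can_core _ h
  have v2 : C.core s.stE.facet → IsV s := by
    intro h
    rw [← IsV_stE]
    rcases h2 with h2 | h2
    · rw [h2]; exact C.can_core _ h
    · rw [h2, IsV_r2]; exact C.can_core _ h
  constructor
  · intro h
    exact (C.core_E s (v2 h)).1 h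
  · intro h
    exact (C.core_E s (v1 h)).2 h

lemma core_gE {f g : P.Facet} (h : (C.can f).stE = C.can g ∨ (C.can f).stE = (C.can g).r2) :
    C.core g ↔ C.core f := by
  have hg : (C.can f).stE.facet = g := by
    rcases h with h | h
    · rw [h, C.can_facet]
    · rw [h, FSt.facet_r2, C.can_facet]
  have h1 := C.core_step (s := C.can f) (Or.inl (C.can_can f).symm) (by rw [hg]; exact h)
  rwa [hg, C.can_facet] at h1

lemma core_gW {f g : P.Facet}
    (h : (C.can f).r2.stE = C.can g ∨ (C.can f).r2.stE = (C.can g).r2) :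
    C.core g ↔ C.core f := by
  have hg : (C.can f).r2.stE.facet = g := by
    rcases h with h | h
    · rw [h, C.can_facet]
    · rw [h, FSt.facet_r2, C.can_facet]
  have h1 := C.core_step (s := (C.can f).r2) (Or.inr (by rw [FSt.facet_r2, C.can_can]))
    (by rw [hg]; exact h)
  rwa [hg, FSt.facet_r2, C.can_facet] at h1

namespace Rims

variable {C} {D : ℕ} (R : C.Rims D)

open Classical in
/-- strands of all facets -/
noncomputable def prF (f : P.Facet) : ℕ → ℕ → Bool :=
  if h : C.core f then (R.win (C.can f) (C.hcan h)).pr else C.pr f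

open Classical in
/-- lanes of all facets -/
noncomputable def laF (f : P.Facet) : ℕ → ℕ → Ln :=
  if h : C.core f then (R.win (C.can f) (C.hcan h)).la else C.la f

lemma prF_core {f : P.Facet} (h : C.core f) : R.prF f = (R.win (C.can f) (C.hcan h)).pr :=
  dif_pos h

lemma prF_not {f : P.Facet} (h : ¬ C.core f) : R.prF f = C.pr f := dif_neg h

lemma laF_core {f : P.Facet} (h : C.core f) : R.laF f = (R.win (C.can f) (C.hcan h)).la :=
  dif_pos h

lemma laF_not {f : P.Facet} (h : ¬ C.core f) : R.laF f = C.la f := dif_neg h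

lemma cellOkF (f : P.Facet) : CellOk k (R.prF f) (R.laF f) := by
  by_cases h : C.core f
  · rw [R.prF_core h, R.laF_core h]; exact Win.ok _
  · rw [R.prF_not h, R.laF_not h]; exact C.ok f h

lemma laF_bot (f : P.Facet) {x : ℕ} (hx : x < k) : R.laF f x 0 = C.la f x 0 := by
  by_cases h : C.core f
  · rw [R.laF_core h, Win.la_bot, R.win_bot _ _ hx]
    unfold wd
    rw [if_pos (C.can_can f), C.can_facet]
  · rw [R.laF_not h]

lemma laF_top (f : P.Facet) {x : ℕ} (hx : x < k) : R.laF f x k = C.la f x k := by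
  by_cases h : C.core f
  · rw [R.laF_core h, Win.la_top _ hx, R.win_top _ _ hx]
    unfold wd
    rw [if_neg (C.can_r2_ne (C.can_can f)), FSt.facet_r2, C.can_facet]
    congr 1
    omega
  · rw [R.laF_not h]

/-- equal states have equal windows -/
lemma win_congr {r s : P.FSt} (h : r = s) (hr : IsV r ∧ C.core r.facet)
    (hs : IsV s ∧ C.core s.facet) : R.win r hr = R.win s hs := by
  subst h; rfl

lemma gE_F (f g : P.Facet) (h : (C.can f).stE = C.can g) (y : ℕ) (hy : y < k) :
    R.prF f k y = R.prF g 0 y := by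
  by_cases hf : C.core f
  · have hg : C.core g := (C.core_gE (Or.inl h)).2 hf
    rw [R.prF_core hf, R.prF_core hg, ← R.win_E_pr (C.can f) (C.hcan hf) y]
    rw [R.win_congr h (vE (C.hcan hf)) (C.hcan hg)]
  · have hg : ¬ C.core g := fun hg => hf ((C.core_gE (Or.inl h)).1 hg)
    rw [R.prF_not hf, R.prF_not hg]
    exact C.gE f g hf h y hy

lemma gEr_F (f g : P.Facet) (h : (C.can f).stE = (C.can g).r2) (y : ℕ) (hy : y < k) :
    R.prF f k y = R.prF g k (k - 1 - y) := by
  by_cases hf : C.core f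
  · have hg : C.core g := (C.core_gE (Or.inr h)).2 hf
    rw [R.prF_core hf, R.prF_core hg, ← R.win_E_pr (C.can f) (C.hcan hf) y]
    rw [R.win_congr h (vE (C.hcan hf)) (vr2 (C.hcan hg)),
      R.win_rot_pr (C.can g) (C.hcan hg) (Nat.zero_le _) hy, Nat.sub_zero]
  · have hg : ¬ C.core g := fun hg => hf ((C.core_gE (Or.inr h)).1 hg)
    rw [R.prF_not hf, R.prF_not hg]
    exact C.gEr f g hf h y hy

lemma gWr_F (f g : P.Facet) (h : (C.can f).r2.stE = C.can g) (y : ℕ) (hy : y < k) :
    R.prF f 0 y = R.prF g 0 (k - 1 - y) := by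
  by_cases hf : C.core f
  · have hg : C.core g := (C.core_gW (Or.inl h)).2 hf
    rw [R.prF_core hf, R.prF_core hg]
    have h1 := R.win_E_pr (C.can f).r2 (vr2 (C.hcan hf)) (k - 1 - y)
    rw [R.win_congr h (vE (vr2 (C.hcan hf))) (C.hcan hg)] at h1
    rw [h1, R.win_rot_pr (C.can f) (C.hcan hf) le_rfl (by omega), Nat.sub_self]
    congr 1
    omega
  · have hg : ¬ C.core g := fun hg => hf ((C.core_gW (Or.inl h)).1 hg)
    rw [R.prF_not hf, R.prF_not hg]
    exact C.gWr f g hf h y hy

lemma gE'_F (f : P.Facet) (h : ∀ g, (C.can f).stE ≠ C.can g ∧ (C.can f).stE ≠ (C.can g).r2)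
    (y : ℕ) (hy : y < k) : R.prF f k y = false := by
  by_cases hf : C.core f
  · exfalso
    rcases C.can_or (vE (C.hcan hf)) with h1 | h1
    · exact (h _).1 h1.symm
    · apply (h (C.can f).stE.r2.facet).2
      rw [h1, FSt.r2_r2]
  · rw [R.prF_not hf]
    exact C.gE' f hf h y hy

lemma gW'_F (f : P.Facet)
    (h : ∀ g, (C.can f).r2.stE ≠ C.can g ∧ (C.can f).r2.stE ≠ (C.can g).r2)
    (y : ℕ) (hy : y < k) : R.prF f 0 y = false := by
  by_cases hf : C.core f
  · exfalso
    rcases C.can_or (vE (vr2 (C.hcan hf))) with h1 | h1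
    · exact (h _).1 h1.symm
    · apply (h (C.can f).r2.stE.r2.facet).2
      rw [h1, FSt.r2_r2]
  · rw [R.prF_not hf]
    exact C.gW' f hf h y hy

lemma core_cell {r : P.FSt} (h : IsV r ∧ C.core r.facet) {x : ℕ} (hx : x < k) :
    ∃ y < k, (R.win r h).pr x y = true ∧ (R.win r h).pr (x + 1) y = true := by
  have h1 := R.base_add h.1
  have h2 := R.tc_pos r
  refine ⟨R.base r, by omega, ?_, ?_⟩
  · exact R.core_row r h le_rfl (by omega) hx.le
  · exact R.core_row r h le_rfl (by omega) hx

lemma cov_F (f : P.Facet) (hL : ¬ C.L f) (x : ℕ) (hx : x < k) (w : Bool) :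
    ∃ z : ℤ, (∀ y ∈ Set.uIcc 0 z, ∃ g, ¬ C.L g ∧ (pN ^ y) (C.can f) = C.can g) ∧
    ∃ g, (pN ^ z) (C.can f) = C.can g ∧
      ∃ y < k, R.prF g (if w then x else x + 1) y = true := by
  have hcore : ∀ g, C.core g → ∃ y < k, R.prF g (if w then x else x + 1) y = true := by
    intro g hg
    obtain ⟨y, hy, h1, h2⟩ := R.core_cell (C.hcan hg) hx
    refine ⟨y, hy, ?_⟩
    rw [R.prF_core hg]
    cases w
    · exact h2
    · exact h1
  by_cases hf : C.core f
  · refine ⟨0, ?_, f, by simp, hcore f hf⟩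
    intro y hy
    have : y = 0 := by simpa using hy
    subst this
    exact ⟨f, hL, by simp⟩
  · obtain ⟨z, h1, g, h2, h3⟩ := C.cov f hf hL x hx w
    refine ⟨z, h1, g, h2, ?_⟩
    by_cases hg : C.core g
    · exact hcore g hg
    · rw [R.prF_not hg]
      exact h3.resolve_left hg

/-- constant windows over core facets without letters that are not special -/
lemma win_const {r : P.FSt} (h : IsV r ∧ C.core r.facet) (hsp : ¬ R.sp r.facet)
    (hl : ∀ x < k, C.la r.facet x 0 = Ln.z ∧ C.la r.facet x k = Ln.z) :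
    (∀ x ≤ k, (R.win r h).lo x = (R.win r h).lo 0 ∧ (R.win r h).hi x = (R.win r h).hi 0) ∧
      (∀ x < k, (R.win r h).sh x = false) := by
  have hsh : ∀ (s : P.FSt), s.facet = r.facet → ∀ x, shc k R.sp s x = false := by
    intro s hs x
    rw [Bool.eq_false_iff]
    intro h1
    rw [shc_true, hs] at h1
    exact hsp h1.1
  have hwd : ∀ (s : P.FSt), s.facet = r.facet → ∀ x < k, C.wd s x = Ln.z := by
    intro s hs x hx
    unfold wd
    rw [hs]
    split_ifs
    · exact (hl x hx).1
    · exact (hl (k - 1 - x) (by omega)).2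
  have hH : ∀ (s : P.FSt), s.facet = r.facet → IsV s ∧ C.core s.facet → ∀ x ≤ k,
      R.H s x = R.H s 0 := by
    intro s hs hv x
    induction x with
    | zero => intro _; rfl
    | succ x ih =>
      intro hx
      have h1 := R.H_not hv (x := x) (by omega) (hsh s hs x)
      rw [hwd s hs x (by omega)] at h1
      have h2 := ih (by omega)
      simp only [vl] at h1
      omega
  refine ⟨fun x hx => ⟨?_, ?_⟩, fun x hx => ?_⟩
  · rw [win_lo, win_lo, hH r rfl h x hx]
  · rw [win_hi, win_hi, hH r.r2 rfl (vr2 h) (k - x) (by omega),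
      hH r.r2 rfl (vr2 h) (k - 0) (by omega)]
  · rw [win_sh]; exact hsh r rfl x

lemma win_const_la {r : P.FSt} (h : IsV r ∧ C.core r.facet) (hsp : ¬ R.sp r.facet)
    (hl : ∀ x < k, C.la r.facet x 0 = Ln.z ∧ C.la r.facet x k = Ln.z) {x y : ℕ} (hx : x < k) :
    (R.win r h).la x y = Ln.z := by
  obtain ⟨h1, h2⟩ := R.win_const h hsp hl
  unfold Win.la
  rw [if_neg (by rw [h2 x hx]; decide), (h1 x hx.le).1, (h1 x hx.le).2, (h1 (x + 1) hx).1,
    (h1 (x + 1) hx).2]
  unfold lnd
  split_ifs <;> first | rfl | (exfalso; omega)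

/-- the support of a lean facet -/
noncomputable def tlean {f : P.Facet} (D' : JLean P k C.core C.nsp C.L C.can C.pr C.la f) :
    Nonempty (P.TLean k C.can C.L R.prF R.laF f) := by
  have hk : 0 < k := by have := R.hk4; omega
  have hs2 : ∀ i : ℕ, 1 ≤ i → i ≤ D'.n → ∃ h, ¬ C.L h ∧ (pN ^ (i : ℤ)) (C.can D'.g0) = C.can h ∧
      ∀ y < k, R.prF h (if D'.E then 0 else k) y = false := by
    intro i h1 h2
    obtain ⟨h, a1, a2, a3, a4⟩ := D'.s2 i h1 h2
    exact ⟨h, a1, a3, by rw [R.prF_not a2]; exact a4⟩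
  rcases D'.base with ⟨c1, c2, c3, c4, c5⟩ | ⟨c1, c2, y0, hy0, c3, c4, c5, c6⟩
  · -- core support
    have hf := C.hcan c1
    have hg := C.hcan c2
    have sf : ¬ R.sp (C.can D'.f0).facet := by
      rw [C.can_facet]; exact fun h => R.sp_nsp _ c1 h c3
    have sg : ¬ R.sp (C.can D'.g0).facet := by
      rw [C.can_facet]; exact fun h => R.sp_nsp _ c2 h c4
    have lf : ∀ x < k, C.la (C.can D'.f0).facet x 0 = Ln.z ∧
        C.la (C.can D'.f0).facet x k = Ln.z := by
      intro x hx
      rw [C.can_facet]; exact ⟨(c5 x hx).1, (c5 x hx).2.1⟩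
    have lg : ∀ x < k, C.la (C.can D'.g0).facet x 0 = Ln.z ∧
        C.la (C.can D'.g0).facet x k = Ln.z := by
      intro x hx
      rw [C.can_facet]; exact ⟨(c5 x hx).2.2.1, (c5 x hx).2.2.2⟩
    obtain ⟨f1, f2⟩ := R.win_const hf sf lf
    obtain ⟨g1, g2⟩ := R.win_const hg sg lg
    set y0 := (R.win (C.can D'.f0) hf).hi 0 with hy0
    have hlt := (R.win (C.can D'.f0) hf).lt 0 (Nat.zero_le _)
    have hle := (R.win (C.can D'.f0) hf).lo_le_hi hk (Nat.zero_le k)
    -- the windows of the two facets agree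
    have hag : (R.win (C.can D'.g0) hg).hi 0 = y0 ∧
        (R.win (C.can D'.g0) hg).lo 0 = (R.win (C.can D'.f0) hf).lo 0 := by
      have hp := D'.par 0 (Nat.zero_le _)
      by_cases hE : D'.E = true
      · rw [if_pos hE] at hp
        have hp' : (C.can D'.f0).stE = C.can D'.g0 := by simpa using hp
        have e1 := R.win_congr hp' (vE hf) hg
        rw [← e1]
        refine ⟨?_, ?_⟩
        · exact (R.win_E_hi (C.can D'.f0) hf).trans (f1 k le_rfl).2
        · exact (R.win_E_lo (C.can D'.f0) hf).trans (f1 k le_rfl).1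
      · rw [if_neg hE] at hp
        have hp' : (C.can D'.g0).stE = C.can D'.f0 := by simpa using hp
        have e1 := R.win_congr hp' (vE hg) hf
        have e2 := R.win_E_hi (C.can D'.g0) hg
        have e3 := R.win_E_lo (C.can D'.g0) hg
        rw [e1] at e2 e3
        rw [(g1 k le_rfl).2] at e2
        rw [(g1 k le_rfl).1] at e3
        exact ⟨e2.symm, e3.symm⟩
    refine ⟨{ f0 := D'.f0, g0 := D'.g0, n := D'.n, y0 := y0, E := D'.E, hn := D'.hn, hy := hlt,
              row := ?_, rla := ?_, top := D'.top, par := D'.par, s0 := ?_, s1 := ?_, s2 := hs2 }⟩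
    · intro x hx
      rw [R.prF_core c1, Win.pr_true, (f1 x hx).1, (f1 x hx).2]
      exact ⟨hle, le_rfl⟩
    · intro x hx
      rw [R.laF_core c1]
      exact ⟨R.win_const_la hf sf lf hx, R.win_const_la hf sf lf hx⟩
    · have hsx : (if D'.E then 0 else k - 1) < k := by split_ifs <;> omega
      rw [R.prF_core c2, R.laF_core c2, Win.pr_true, Win.pr_true, (g1 _ hsx.le).1, (g1 _ hsx.le).2,
        (g1 _ hsx).1, (g1 _ hsx).2, hag.1, hag.2]
      exact ⟨⟨hle, le_rfl⟩, ⟨hle, le_rfl⟩, R.win_const_la hg sg lg hsx,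
        R.win_const_la hg sg lg hsx⟩
    · intro y h1 h2
      have hsx : (if D'.E then 0 else k) ≤ k := by split_ifs <;> omega
      rw [R.prF_core c2, Bool.eq_false_iff]
      intro h3
      rw [Win.pr_true, (g1 _ hsx).2, hag.1] at h3
      omega
  · refine ⟨{ f0 := D'.f0, g0 := D'.g0, n := D'.n, y0 := y0, E := D'.E, hn := D'.hn, hy := hy0,
              row := ?_, rla := ?_, top := D'.top, par := D'.par, s0 := ?_, s1 := ?_, s2 := hs2 }⟩
    · rw [R.prF_not c1]; exact c3
    · rw [R.laF_not c1]; exact c4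
    · rw [R.prF_not c2, R.laF_not c2]; exact c5
    · rw [R.prF_not c2]; exact c6

/-- there is a letter -/
lemma exists_letter {B : ℕ} (hW : C.Words B) (f : P.Facet) (hf : C.L f) :
    ∃ g x y, x < k ∧ y ≤ k ∧ R.laF g x y ≠ Ln.z := by
  obtain ⟨g, hg⟩ := C.lcut f hf
  have hv := C.hcan hg
  have h1 := hW.tot (C.can g) hv.1 hv.2
  have hk : 0 < k := by have := R.hk4; omega
  have hex : ∃ j, ∃ x < k, C.wd ((pE^[j]) (C.can g)) x ≠ Ln.z := by
    by_contra hcon
    push Not at hcon
    rw [show Function.minimalPeriod pE (C.can g) * k =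
      Function.minimalPeriod pE (C.can g) * k + 0 by rfl] at h1
    have h2 := C.wsum_gen (C.can g) (Function.minimalPeriod pE (C.can g)) (x := 0) (Nat.zero_le k)
    rw [h1, Finset.sum_range_zero, add_zero] at h2
    have h3 : ∑ j ∈ Finset.range (Function.minimalPeriod pE (C.can g)),
        ∑ y ∈ Finset.range k, vl (C.wd ((pE^[j]) (C.can g)) y) = 0 := by
      apply Finset.sum_eq_zero
      intro j _
      apply Finset.sum_eq_zero
      intro y hy
      rw [hcon j y (Finset.mem_range.1 hy)]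
      rfl
    rw [h3] at h2
    exact absurd h2 (by norm_num)
  obtain ⟨j, x, hx, h2⟩ := hex
  set s := (pE^[j]) (C.can g) with hs
  unfold wd at h2
  by_cases hc : C.can s.facet = s
  · rw [if_pos hc] at h2
    exact ⟨s.facet, x, 0, hx, Nat.zero_le _, by rw [R.laF_bot _ hx]; exact h2⟩
  · rw [if_neg hc] at h2
    exact ⟨s.facet, k - 1 - x, k, by omega, le_rfl, by rw [R.laF_top _ (by omega)]; exact h2⟩

/-- the relations given by the table -/
structure InvF (ψ χ : P.Facet → ℕ → ℕ → Prop) : Prop where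
  cell : ∀ f, CellRel k (R.prF f) (R.laF f) (ψ f) (χ f)
  gN : ∀ f g, (C.can f).stN = C.can g → ∀ x < k, R.laF f x k ≠ Ln.z → (χ f x k ↔ χ g x 0)
  gE : ∀ f g, (C.can f).stE = C.can g → ∀ y < k, R.prF f k y = true → (ψ f k y ↔ ψ g 0 y)
  gEr : ∀ f g, (C.can f).stE = (C.can g).r2 → ∀ y < k, R.prF f k y = true →
    (ψ f k y ↔ ψ g k (k - 1 - y))
  gWr : ∀ f g, (C.can f).r2.stE = C.can g → ∀ y < k, R.prF f 0 y = true →
    (ψ f 0 y ↔ ψ g 0 (k - 1 - y))

/-- the table of a junction certificate -/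
noncomputable def tab {B : ℕ} (hW : C.Words B) (hne : Nonempty P.Facet)
    (hc : ∀ ψ χ, R.InvF ψ χ → ∃ c : Prop,
      (∀ f x y, x ≤ k → y < k → R.prF f x y = true → (ψ f x y ↔ c)) ∧
      (∀ f x y, x < k → y ≤ k → R.laF f x y ≠ Ln.z → (χ f x y ↔ c))) : P.LTab k where
  hk := by have := R.hk4; omega
  can := C.can
  can_facet := C.can_facet
  pr := R.prF
  la := R.laF
  ok := R.cellOkF
  gN := fun f g h x hx => by
    rw [R.laF_top f hx, R.laF_bot g hx]; exact C.gN f g h x hx
  gN' := fun f h x hx => by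
    rw [R.laF_top f hx]; exact C.gN' f h x hx
  gS' := fun g h x hx => by
    rw [R.laF_bot g hx]; exact C.gS' g h x hx
  gE := R.gE_F
  gEr := R.gEr_F
  gWr := R.gWr_F
  gE' := R.gE'_F
  gW' := R.gW'_F
  L := C.L
  Lpr := fun f hf x y hx hy => by rw [R.prF_not (C.L_core f hf)]; exact C.Lpr f hf x y hx hy
  Lla := fun f hf x y hx hy => by rw [R.laF_not (C.L_core f hf)]; exact C.Lla f hf x y hx hy
  cov := R.cov_F
  lean := fun f hf => R.tlean (Classical.choice (C.lean f hf))
  cut := fun f hf => R.exists_letter hW f hf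
  conn := fun ψ χ h1 h2 h3 h4 h5 => hc ψ χ ⟨h1, h2, h3, h4, h5⟩
  ne := hne

variable {R}

/-- the relation in the frame of a state -/
lemma InvF.rel {ψ χ : P.Facet → ℕ → ℕ → Prop} (I : R.InvF ψ χ) (r : P.FSt)
    (h : IsV r ∧ C.core r.facet) :
    CellRel k (R.win r h).pr (R.win r h).la (C.vS ψ r) (C.hS χ r) := by
  have hk : 0 < k := by have := R.hk4; omega
  have h1 := I.cell r.facet
  rw [R.prF_core h.2, R.laF_core h.2] at h1
  rcases C.can_or h with h2 | h2
  · rw [R.win_congr h2 (C.hcan h.2) h] at h1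
    unfold vS hS
    rw [if_pos h2, if_pos h2]
    exact h1
  · have h3 : C.can r.facet ≠ r := by
      have := C.can_r2_ne h2
      rwa [FSt.r2_r2] at this
    have h4 : C.can r.facet = r.r2 := h2
    rw [R.win_congr h4 (C.hcan h.2) (vr2 h)] at h1
    unfold vS hS
    rw [if_neg h3, if_neg h3]
    apply CellRel.unrot (Win.ok _)
    intro x y hx hy p
    have e1 : ∀ x y, x ≤ k → y < k → rV k (R.win r h).pr x y = (R.win r.r2 (vr2 h)).pr x y := by
      intro x y hx hy
      rw [R.win_rot_pr r h hx hy]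
      rfl
    have e2 : ∀ x y, x < k → y ≤ k → rH k (R.win r h).la x y = (R.win r.r2 (vr2 h)).la x y := by
      intro x y hx hy
      rw [R.win_rot_la r h hx hy]
      rfl
    rw [e1 x y hx.le hy, e1 (x + 1) y hx hy, e2 x (y + 1) hx hy, e2 x y hx hy.le]
    exact h1 x y hx hy p

lemma InvF.gl {ψ χ : P.Facet → ℕ → ℕ → Prop} (I : R.InvF ψ χ) (r : P.FSt)
    (h : IsV r ∧ C.core r.facet) (y : ℕ) (hy : y < k) (hp : (R.win r h).pr k y = true) :
    C.vS ψ r k y ↔ C.vS ψ r.stE 0 y := by
  have hE := vE h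
  rcases C.can_or h with h2 | h2 <;> rcases C.can_or hE with h3 | h3
  · -- both canonical
    have e1 : (C.can r.facet).stE = C.can r.stE.facet := by rw [h2, h3]
    have e2 : R.prF r.facet k y = true := by
      rw [R.prF_core h.2, R.win_congr h2 (C.hcan h.2) h]; exact hp
    have := I.gE _ _ e1 y hy e2
    unfold vS
    rw [if_pos h2, if_pos h3]
    exact this
  · have h3' : C.can r.stE.facet = r.stE.r2 := h3
    have h5 : C.can r.stE.facet ≠ r.stE := by
      have := C.can_r2_ne h3
      rwa [FSt.r2_r2] at this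
    have e1 : (C.can r.facet).stE = (C.can r.stE.facet).r2 := by rw [h2, h3', FSt.r2_r2]
    have e2 : R.prF r.facet k y = true := by
      rw [R.prF_core h.2, R.win_congr h2 (C.hcan h.2) h]; exact hp
    have := I.gEr _ _ e1 y hy e2
    unfold vS
    rw [if_pos h2, if_neg h5]
    exact this
  · have h2' : C.can r.facet = r.r2 := h2
    have h5 : C.can r.facet ≠ r := by
      have := C.can_r2_ne h2
      rwa [FSt.r2_r2] at this
    have e1 : (C.can r.facet).r2.stE = C.can r.stE.facet := by rw [h3, h2', FSt.r2_r2]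
    have e2 : R.prF r.facet 0 (k - 1 - y) = true := by
      rw [R.prF_core h.2, R.win_congr h2' (C.hcan h.2) (vr2 h),
        R.win_rot_pr r h (Nat.zero_le _) (by omega), Nat.sub_zero,
        show k - 1 - (k - 1 - y) = y by omega]
      exact hp
    have := I.gWr _ _ e1 (k - 1 - y) (by omega) e2
    rw [show k - 1 - (k - 1 - y) = y by omega] at this
    unfold vS
    rw [if_neg h5, if_pos h3, rV_apply (ψ r.facet) (x' := 0) (y' := k - 1 - y) (by omega) rfl]
    exact this
  · have h2' : C.can r.facet = r.r2 := h2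
    have h3' : C.can r.stE.facet = r.stE.r2 := h3
    have h5 : C.can r.facet ≠ r := by
      have := C.can_r2_ne h2
      rwa [FSt.r2_r2] at this
    have h6 : C.can r.stE.facet ≠ r.stE := by
      have := C.can_r2_ne h3
      rwa [FSt.r2_r2] at this
    have e1 : (C.can r.stE.facet).stE = C.can r.facet := by rw [h3', h2', FSt.stE_inv]
    have e2 : R.prF r.stE.facet k (k - 1 - y) = true := by
      rw [R.prF_core hE.2, R.win_congr h3' (C.hcan hE.2) (vr2 hE),
        R.win_rot_pr r.stE hE le_rfl (by omega), Nat.sub_self,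
        show k - 1 - (k - 1 - y) = y by omega, R.win_E_pr r h]
      exact hp
    have := I.gE _ _ e1 (k - 1 - y) (by omega) e2
    unfold vS
    rw [if_neg h5, if_neg h6, rV_apply (ψ r.facet) (x' := 0) (y' := k - 1 - y) (by omega) rfl,
      rV_apply (ψ r.stE.facet) (x' := k) (y' := k - 1 - y) (by omega) rfl]
    exact this.symm

lemma InvF.rinv {ψ χ : P.Facet → ℕ → ℕ → Prop} (I : R.InvF ψ χ) : RInv R ψ χ :=
  ⟨fun r h => I.rel r h, fun r h y hy hp => I.gl r h y hy hp⟩

/-- the relations outside of the core -/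
lemma InvF.inv {ψ χ : P.Facet → ℕ → ℕ → Prop} (I : R.InvF ψ χ)
    (hm : ∀ r x q', IsV r → C.core r.facet → x < k → C.Matched (r, x) q' →
      (C.fv χ r x ↔ C.fv χ q'.1 q'.2)) : C.Inv ψ χ where
  cell := fun f hf => by
    have := I.cell f
    rwa [R.prF_not hf, R.laF_not hf] at this
  gN := fun f g h x hx hl => I.gN f g h x hx (by rw [R.laF_top f hx]; exact hl)
  gE := fun f g hf h y hy hp => I.gE f g h y hy (by rw [R.prF_not hf]; exact hp)
  gEr := fun f g hf h y hy hp => I.gEr f g h y hy (by rw [R.prF_not hf]; exact hp)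
  gWr := fun f g hf h y hy hp => I.gWr f g h y hy (by rw [R.prF_not hf]; exact hp)
  matched := hm

end Rims

end JCert

end Pool.Agent.MP42G
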